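import Mathlib

/-!
# Project ASF (MP_8ae111_al, Q1): alternative rings with a solvable fixed subring

Definitions.  Everything is over a nonunital nonassociative ring `A`; the module level uses a
commutative ring `R` in which `6` is a unit.
-/

namespace ASF

universe u

/-- alternative ring -/
class Alt (A : Type*) [NonUnitalNonAssocRing A] : Prop where
  left : ∀ x y : A, x * (x * y) = (x * x) * y
  right : ∀ x y : A, (y * x) * x = y * (x * x)

/-- no 2- and no 3-torsion -/
class NT (A : Type*) [NonUnitalNonAssocRing A] : Prop where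
  two : ∀ x : A, x + x = 0 → x = 0
  three : ∀ x : A, x + x + x = 0 → x = 0

section ring

variable {A : Type*} [NonUnitalNonAssocRing A]

/-- associator `(x,y,z)` -/
def asc (x y z : A) : A := (x * y) * z - x * (y * z)

/-- commutator `[x,y]` -/
def cm (x y : A) : A := x * y - y * x

/-- Jordan product `x ∘ y = xy + yx` -/
def jo (x y : A) : A := x * y + y * x

/-- the standard inner derivation `D_{u,v} x = [[u,v],x] - 3 (u,v,x)` -/
def DS (u v x : A) : A := cm (cm u v) x - 3 • asc u v x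

/-- Kleinfeld function (alternating in all four arguments in an alternative ring) -/
def kl (w x y z : A) : A := asc (w * x) y z - x * asc w y z - asc x y z * w

/-- derivation of a ring (as a plain map) -/
structure IsDer (D : A → A) : Prop where
  add : ∀ x y, D (x + y) = D x + D y
  mul : ∀ x y, D (x * y) = D x * y + x * D y

/-- words of left and right multiplications -/
def wd : List (Bool × A) → A → A
  | [], x => x
  | (true, a) :: l, x => a * wd l x
  | (false, a) :: l, x => wd l x * a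

/-- nuclear element -/
def Nuc (n : A) : Prop := ∀ x y : A, asc n x y = 0

/-- `dl b c x = (x,b,c)`; for `b c = 0` this is `(x b) c` -/
def dl (b c x : A) : A := asc x b c

/-- first level orthogonality of two elements -/
structure O1 (r s : A) : Prop where
  rs : r * s = 0
  sr : s * r = 0
  ra_s : ∀ a, (r * a) * s = 0
  ar_s : ∀ a, (a * r) * s = 0
  s_ra : ∀ a, s * (r * a) = 0
  s_ar : ∀ a, s * (a * r) = 0
  r_sa : ∀ a, r * (s * a) = 0
  r_as : ∀ a, r * (a * s) = 0
  sa_r : ∀ a, (s * a) * r = 0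
  as_r : ∀ a, (a * s) * r = 0

/-- first level orthogonality of the tensor `∑ r k ⊗ s k` -/
structure O1F {ι : Type} [Fintype ι] (r s : ι → A) : Prop where
  rs : ∑ k, r k * s k = 0
  sr : ∑ k, s k * r k = 0
  ra_s : ∀ a, ∑ k, (r k * a) * s k = 0
  ar_s : ∀ a, ∑ k, (a * r k) * s k = 0
  s_ra : ∀ a, ∑ k, s k * (r k * a) = 0
  s_ar : ∀ a, ∑ k, s k * (a * r k) = 0
  r_sa : ∀ a, ∑ k, r k * (s k * a) = 0
  r_as : ∀ a, ∑ k, r k * (a * s k) = 0
  sa_r : ∀ a, ∑ k, (s k * a) * r k = 0
  as_r : ∀ a, ∑ k, (a * s k) * r k = 0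

/-- `nu b1 b2 b3 x y = Σ_cyc [D_{12} x, [b3, y]]` -/
def nu (b1 b2 b3 x y : A) : A :=
  cm (dl b1 b2 x) (cm b3 y) + cm (dl b2 b3 x) (cm b1 y) + cm (dl b3 b1 x) (cm b2 y)

/-- `XX b1 b2 b3 x y z = Σ_cyc (D_{12} x, [b3, y], z)` -/
def XX (b1 b2 b3 x y z : A) : A :=
  asc (dl b1 b2 x) (cm b3 y) z + asc (dl b2 b3 x) (cm b1 y) z + asc (dl b3 b1 x) (cm b2 y) z

/-- `vv b1 b2 b3 x = [b3, D_{12} x]` -/
def vv (b1 b2 b3 x : A) : A := cm b3 (dl b1 b2 x)

/-- `FF b1 b2 b3 b4 x y a = (D_{12} x, D_{34} y, a)` -/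
def FF (b1 b2 b3 b4 x y a : A) : A := asc (dl b1 b2 x) (dl b3 b4 y) a

/-- a null additive subgroup -/
def Null (B : AddSubgroup A) : Prop := ∀ b ∈ B, ∀ c ∈ B, b * c = 0

end ring

section module

variable {R : Type} [CommRing R] {A : Type*} [NonUnitalNonAssocRing A] [Module R A]
  [IsScalarTower R A A] [SMulCommClass R A A]

/-- product of two submodules -/
def mulS (I J : Submodule R A) : Submodule R A :=
  Submodule.span R {z | ∃ x ∈ I, ∃ y ∈ J, z = x * y}

/-- two-sided ideal -/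
def IsIdl (I : Submodule R A) : Prop := ∀ x ∈ I, ∀ a : A, a * x ∈ I ∧ x * a ∈ I

/-- the two-sided ideal generated by a set -/
def Idl (R : Type) [CommRing R] {A : Type*} [NonUnitalNonAssocRing A] [Module R A]
    (S : Set A) : Submodule R A :=
  sInf {I : Submodule R A | IsIdl I ∧ S ⊆ I}

/-- derived series of a submodule -/
def der (I : Submodule R A) : ℕ → Submodule R A
  | 0 => I
  | n + 1 => mulS (der I n) (der I n)

/-- solvable submodule -/
def Solv (I : Submodule R A) : Prop := ∃ n, der I n = ⊥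

/-- a (not necessarily direct) grading of `A` by `ZMod q` -/
structure Grd (q : ℕ) (𝒜 : ZMod q → Submodule R A) : Prop where
  mul : ∀ i j, ∀ x ∈ 𝒜 i, ∀ y ∈ 𝒜 j, x * y ∈ 𝒜 (i + j)
  sup : ⨆ i, 𝒜 i = ⊤

/-- graded algebra with `𝒜 0` solvable and a null ideal `B` of `𝒜 0` -/
structure GP (q : ℕ) (𝒜 : ZMod q → Submodule R A) (B : Submodule R A) : Prop where
  grd : Grd q 𝒜
  sol : Solv (𝒜 0)
  le : B ≤ 𝒜 0
  idl : ∀ a ∈ 𝒜 0, ∀ b ∈ B, a * b ∈ B ∧ b * a ∈ B
  null : ∀ b ∈ B, ∀ c ∈ B, b * c = 0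

/-- the span of the chains `((b a_1) d_1 ...) a_k) d_k`; `WW B 0 = B` -/
def WW (B : Submodule R A) : ℕ → Submodule R A
  | 0 => B
  | k + 1 => Submodule.span R {z | ∃ w ∈ WW B k, ∃ a : A, ∃ d ∈ B, z = (w * a) * d}

end module

/-- derived series of an additive subgroup, `derG S 0 = S`, `derG S (n+1) = (derG S n)(derG S n)` -/
def derG {A : Type*} [NonUnitalNonAssocRing A] (S : AddSubgroup A) : ℕ → AddSubgroup A
  | 0 => S
  | n + 1 => AddSubgroup.closure {z | ∃ x ∈ derG S n, ∃ y ∈ derG S n, z = x * y}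

end ASF
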