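import Pool.Agent.H71.ASF.Stmts

/-!
# ASF, modules WR7 and WAB
-/

set_option autoImplicit false

namespace ASF

universe u

theorem wr7 (hKG3 : KG3Stmt.{u}) (hKQ0 : KQ0Stmt.{u}) : WR7Stmt.{u} := by
  intro A _ _ _ b1 b2 b3 hT x y z
  have hs : ∀ x y z : A, XX b1 b2 b3 y x z = - XX b1 b2 b3 x y z := by
    intro x y z
    have h := hKQ0 A b1 b2 b3 hT.n x y z
    rw [hT.z x y, cm_zero1] at h
    exact eq_neg_of_add_eq_zero_right h
  refine ⟨hs x y z, ?_⟩
  have hTT : ∀ x y z : A, DS (dl b1 b2 x) (cm b3 y) z + DS (dl b2 b3 x) (cm b1 y) z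
      + DS (dl b3 b1 x) (cm b2 y) z = - (3 • XX b1 b2 b3 x y z) := by
    intro x y z
    have h0 : cm (nu b1 b2 b3 x y) z = 0 := by rw [hT.z x y, cm_zero1]
    simp only [nu, cm_add1] at h0
    simp only [DS, XX]
    linear_combination (norm := (simp only [smul_add]; abel)) h0
  have h := hKG3 A b1 b2 b3 hT.n x y z
  rw [hTT x y z, hTT y x z, hs x y z] at h
  have h2 : 3 • (DS x (vv b1 b2 b3 y) z) = 3 • XX b1 b2 b3 x y z := by
    rw [h]; simp only [smul_neg, neg_neg]; abel
  have h3 := e3 h2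
  simpa only [DS] using h3

theorem wab (hKQ0 : KQ0Stmt.{u}) : WABStmt.{u} := by
  intro A _ _ _ b1 b2 b3 hT x y z
  have d12 := dl_isDer (b := b1) (c := b2) hT.n.h12 hT.n.h21
  have d23 := dl_isDer (b := b2) (c := b3) hT.n.h23 hT.n.h32
  have d31 := dl_isDer (b := b3) (c := b1) hT.n.h31 hT.n.h13
  constructor
  · have key : ∀ x y z : A, cm (cm (dl b1 b2 x) y) (cm b3 z) + cm (cm (dl b2 b3 x) y) (cm b1 z)
        + cm (cm (dl b3 b1 x) y) (cm b2 z) = aa b1 b2 b3 x y z - 6 • XX b1 b2 b3 x z y := by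
      intro x y z
      have j1 := jacobi (dl b1 b2 x) y (cm b3 z)
      have j2 := jacobi (dl b2 b3 x) y (cm b1 z)
      have j3 := jacobi (dl b3 b1 x) y (cm b2 z)
      have h0 : cm (nu b1 b2 b3 x z) y = 0 := by rw [hT.z x z, cm_zero1]
      simp only [nu, cm_add1] at h0
      have a1 := asc_s23 (dl b1 b2 x) (cm b3 z) y
      have a2 := asc_s23 (dl b2 b3 x) (cm b1 z) y
      have a3 := asc_s23 (dl b3 b1 x) (cm b2 z) y
      rw [a1, cm_swap (dl b1 b2 x) (cm y (cm b3 z)), cm_swap (dl b1 b2 x) (cm b3 z), cm_neg1] at j1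
      rw [a2, cm_swap (dl b2 b3 x) (cm y (cm b1 z)), cm_swap (dl b2 b3 x) (cm b1 z), cm_neg1] at j2
      rw [a3, cm_swap (dl b3 b1 x) (cm y (cm b2 z)), cm_swap (dl b3 b1 x) (cm b2 z), cm_neg1] at j3
      simp only [aa, XX]
      linear_combination (norm := (simp only [smul_add, smul_neg]; abel)) j1 + j2 + j3 + h0
    have k1 := key x y z
    have k2 := key y x z
    have h0 := hT.z (cm x y) z
    simp only [nu] at h0
    rw [d12.cm, d23.cm, d31.cm, cm_add1, cm_add1, cm_add1, cm_swap (dl b1 b2 y) x,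
      cm_swap (dl b2 b3 y) x, cm_swap (dl b3 b1 y) x, cm_neg1, cm_neg1, cm_neg1] at h0
    linear_combination (norm := abel) h0 - k1 + k2
  · have h0 := hT.z x (cm y z)
    have e : ∀ b : A, cm b (cm y z) = cm y (cm b z) - cm z (cm b y) - 6 • asc b y z := by
      intro b
      have j := jacobi b y z
      rw [cm_swap b (cm y z), cm_swap z (cm b y), cm_swap b z, cm_neg1, cm_swap y (cm b z),
        neg_neg] at j
      linear_combination (norm := abel) - j
    simp only [nu, e, cm_sub2, cm_nsmul2] at h0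
    simp only [aa, ww, smul_add]
    linear_combination (norm := abel) h0

end ASF
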