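import Pool.Agent.H71.ASF.Tool

/-!
# Toolkit, part 2: cancellation, derivations, null elements (project ASF)
-/

set_option linter.unusedSectionVars false

namespace ASF

section cancel
variable {A : Type*} [NonUnitalNonAssocRing A] [NT A]

theorem c2 {x : A} (h : 2 • x = 0) : x = 0 := NT.two x (by rw [two_nsmul] at h; exact h)
theorem c3 {x : A} (h : 3 • x = 0) : x = 0 := NT.three x (by
  have e : x + x + x = 3 • x := by abel
  rw [e, h])
theorem c4 {x : A} (h : 4 • x = 0) : x = 0 := c2 (c2 (by rw [← mul_nsmul]; exact h))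
theorem c6 {x : A} (h : 6 • x = 0) : x = 0 := c2 (c3 (by rw [← mul_nsmul]; exact h))
theorem c12 {x : A} (h : 12 • x = 0) : x = 0 := c2 (c6 (by rw [← mul_nsmul]; exact h))
theorem c24 {x : A} (h : 24 • x = 0) : x = 0 := c2 (c12 (by rw [← mul_nsmul]; exact h))
/-- cancel 2 in an equation -/
theorem e2 {x y : A} (h : 2 • x = 2 • y) : x = y :=
  sub_eq_zero.mp (c2 (by rw [smul_sub, h, sub_self]))
/-- cancel 3 in an equation -/
theorem e3 {x y : A} (h : 3 • x = 3 • y) : x = y :=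
  sub_eq_zero.mp (c3 (by rw [smul_sub, h, sub_self]))
/-- cancel 6 in an equation -/
theorem e6 {x y : A} (h : 6 • x = 6 • y) : x = y :=
  sub_eq_zero.mp (c6 (by rw [smul_sub, h, sub_self]))
theorem eq_zero_of_eq_neg {x : A} (h : x = -x) : x = 0 := c2 (by
  have : 2 • x = x + x := two_nsmul x
  rw [this]; nth_rewrite 1 [h]; exact neg_add_cancel x)

end cancel

section der
variable {A : Type*} [NonUnitalNonAssocRing A]

namespace IsDer
variable {D : A → A} (h : IsDer D)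
include h

theorem zero : D 0 = 0 := by
  have := h.add 0 0
  rw [add_zero] at this
  exact left_eq_add.mp this
theorem neg (x : A) : D (-x) = - D x := by
  have := h.add x (-x)
  rw [add_neg_cancel, h.zero] at this
  exact (eq_neg_of_add_eq_zero_right this.symm)
theorem sub (x y : A) : D (x - y) = D x - D y := by
  rw [sub_eq_add_neg, h.add, h.neg, sub_eq_add_neg]
theorem nsmul (n : ℕ) (x : A) : D (n • x) = n • D x := by
  induction n with
  | zero => simp [h.zero]
  | succ n ih => rw [succ_nsmul, h.add, ih, succ_nsmul]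
theorem asc (x y z : A) : D (asc x y z) = ASF.asc (D x) y z + ASF.asc x (D y) z + ASF.asc x y (D z) := by
  simp only [ASF.asc, h.sub, h.mul, mul_add, add_mul]; abel
theorem cm (x y : A) : D (cm x y) = ASF.cm (D x) y + ASF.cm x (D y) := by
  simp only [ASF.cm, h.sub, h.mul]; abel
theorem jo (x y : A) : D (jo x y) = ASF.jo (D x) y + ASF.jo x (D y) := by
  simp only [ASF.jo, h.add, h.mul]; abel
theorem DS (u v x : A) : D (DS u v x) = ASF.DS (D u) v x + ASF.DS u (D v) x + ASF.DS u v (D x) := by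
  simp only [ASF.DS, h.sub, h.nsmul, h.cm, h.asc, cm_add1, smul_add]; abel

end IsDer

end der

section alt
variable {A : Type*} [NonUnitalNonAssocRing A] [Alt A]

/-- `D_{[u,v],w} + cyc = 0` -/
theorem DS_cyc_cm (u v w x : A) : DS (cm u v) w x + DS (cm v w) u x + DS (cm w u) v x = 0 := by
  have h1 := DS_cyc u v w x
  have h2 := DS_cyc v u w x
  have e1 : DS (cm u v) w x = DS (u * v) w x - DS (v * u) w x := by rw [cm, DS_sub1]
  have e2 : DS (cm v w) u x = DS (v * w) u x - DS (w * v) u x := by rw [cm, DS_sub1]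
  have e3 : DS (cm w u) v x = DS (w * u) v x - DS (u * w) v x := by rw [cm, DS_sub1]
  rw [e1, e2, e3]
  linear_combination (norm := abel) h1 - h2

/-- `D_{u,[v,w]} = D_{[u,v],w} - D_{[u,w],v}` -/
theorem DS_cm2 (u v w x : A) : DS u (cm v w) x = DS (cm u v) w x - DS (cm u w) v x := by
  have h := DS_cyc_cm u v w x
  have e1 : DS u (cm v w) x = - DS (cm v w) u x := DS_swap _ _ _
  have e2 : DS (cm w u) v x = - DS (cm u w) v x := by rw [cm_swap u w, DS_neg1]
  rw [e1]
  rw [e2] at h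
  linear_combination (norm := abel) -h

/-- if `ad n` satisfies the product rule then `n` is nuclear -/
theorem nuc_of_cm [NT A] (n : A) (h : ∀ x y, cm n (x * y) = cm n x * y + x * cm n y) : Nuc n := by
  intro x y
  have h1 := cm_mul x y n
  rw [h x y] at h1
  have h2 : 3 • asc x y n = 0 := by
    linear_combination (norm := abel) h1
  rw [asc_cyc n x y |>.symm]
  exact c3 h2

/-- `D_{u,v} w + D_{v,w} u + D_{w,u} v = - 3 (u,v,w)` -/
theorem DS_sum (u v w : A) : DS u v w + DS v w u + DS w u v = - (3 • asc u v w) := by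
  have h := jacobi u v w
  have h1 := asc_cyc u v w
  have h2 := asc_cyc' u v w
  simp only [DS]
  rw [h1, h2]
  linear_combination (norm := abel) h

/-- orthogonal elements: `(z,w,·)` is a derivation -/
theorem asc_isDer [NT A] (z w : A) (h1 : z * w = 0) (h2 : w * z = 0) : IsDer (asc z w) := by
  constructor
  · intro x y; rw [asc_add3]
  · intro x y
    have h := DS_mul z w x y
    have e : cm z w = 0 := by rw [cm, h1, h2, sub_zero]
    simp only [DS, e, cm_zero1, zero_sub] at h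
    apply e3
    simp only [smul_add]
    simp only [neg_mul, mul_neg, smul_mul_assoc, mul_smul_comm] at h
    linear_combination (norm := abel) -h

end alt

section null
variable {A : Type*} [NonUnitalNonAssocRing A] [Alt A]

theorem dl_add (b c x y : A) : dl b c (x + y) = dl b c x + dl b c y := asc_add1 _ _ _ _
theorem dl_swap (b c x : A) : dl c b x = - dl b c x := asc_s23 _ _ _
theorem dl_add1 (b b' c x : A) : dl (b + b') c x = dl b c x + dl b' c x := asc_add2 _ _ _ _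
theorem dl_add2 (b c c' x : A) : dl b (c + c') x = dl b c x + dl b c' x := asc_add3 _ _ _ _
theorem dl_r {b c : A} (h : b * c = 0) (x : A) : dl b c x = (x * b) * c := by
  rw [dl, asc, h, mul_zero, sub_zero]
theorem dl_l {b c : A} (h : c * b = 0) (x : A) : dl b c x = c * (b * x) := by
  rw [dl, asc_s13 c b x, asc, h, zero_mul, zero_sub, neg_neg]
theorem dl_isDer [NT A] {b c : A} (h1 : b * c = 0) (h2 : c * b = 0) : IsDer (dl b c) := by
  have h := asc_isDer b c h1 h2
  constructor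
  · exact dl_add b c
  · intro x y
    have e := h.mul x y
    simp only [dl]
    rw [← asc_cyc (x * y) b c, ← asc_cyc x b c, ← asc_cyc y b c]; exact e
/-- `D_{bc} d = 0` for pairwise null elements -/
theorem dl_null {b c d : A} (h1 : d * b = 0) (h2 : b * c = 0) : dl b c d = 0 := by
  rw [dl_r h2, h1, zero_mul]
theorem dl_same (b x : A) : dl b b x = 0 := asc_yxx _ _

/-- `D_{12} (x b3) = (D_{12} x) b3` -/
theorem dl_mulr [NT A] {b1 b2 b3 : A} (h12 : b1 * b2 = 0) (h21 : b2 * b1 = 0) (h31 : b3 * b1 = 0)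
    (x : A) : dl b1 b2 (x * b3) = dl b1 b2 x * b3 := by
  rw [(dl_isDer h12 h21).mul, dl_null h31 h12, mul_zero, add_zero]
/-- `D_{12} (b3 x) = b3 (D_{12} x)` -/
theorem dl_mull [NT A] {b1 b2 b3 : A} (h12 : b1 * b2 = 0) (h21 : b2 * b1 = 0) (h31 : b3 * b1 = 0)
    (x : A) : dl b1 b2 (b3 * x) = b3 * dl b1 b2 x := by
  rw [(dl_isDer h12 h21).mul, dl_null h31 h12, zero_mul, zero_add]
/-- `(D_{12} x) b3` is skew in `2,3` -/
theorem dlb_s23 {b1 b2 b3 : A} (h12 : b1 * b2 = 0) (h13 : b1 * b3 = 0) (h23 : b2 * b3 = 0)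
    (h32 : b3 * b2 = 0) (x : A) : dl b1 b3 x * b2 = - (dl b1 b2 x * b3) := by
  rw [dl_r h12, dl_r h13, ← dl_r h32, ← dl_r h23, dl_swap]
/-- `b3 (D_{12} x)` is skew in `2,3` -/
theorem bdl_s23 {b1 b2 b3 : A} (h21 : b2 * b1 = 0) (h31 : b3 * b1 = 0) (h23 : b2 * b3 = 0)
    (h32 : b3 * b2 = 0) (x : A) : b2 * dl b1 b3 x = - (b3 * dl b1 b2 x) := by
  rw [dl_l h21, dl_l h31, ← dl_l h23, ← dl_l h32, dl_swap b2 b3]
/-- `(D_{12} x) b1 = 0` -/
theorem dlb_zero {b1 b2 : A} (h11 : b1 * b1 = 0) (h12 : b1 * b2 = 0) (h21 : b2 * b1 = 0)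
    (x : A) : dl b1 b2 x * b1 = 0 := by
  have e : dl b1 b2 x * b1 = dl b2 b1 (x * b1) := by rw [dl_r h12, dl_r h21]
  rw [e, dl_swap b1 b2, dl_r h12, Alt.right, h11, mul_zero, zero_mul, neg_zero]
/-- `b1 (D_{12} x) = 0` -/
theorem bdl_zero {b1 b2 : A} (h11 : b1 * b1 = 0) (h12 : b1 * b2 = 0) (h21 : b2 * b1 = 0)
    (x : A) : b1 * dl b1 b2 x = 0 := by
  have e : b1 * dl b1 b2 x = dl b2 b1 (b1 * x) := by rw [dl_l h21, dl_l h12]
  rw [e, dl_swap b1 b2, dl_l h21, Alt.left, h11, zero_mul, mul_zero, neg_zero]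
/-- `D_{12} D_{12} x = 0` -/
theorem dldl {b1 b2 : A} (h11 : b1 * b1 = 0) (h12 : b1 * b2 = 0) (h21 : b2 * b1 = 0)
    (x : A) : dl b1 b2 (dl b1 b2 x) = 0 := by
  rw [dl_r h12 (dl b1 b2 x), dlb_zero h11 h12 h21, zero_mul]
/-- `(D_{12} x) (D_{12} y) = 0` -/
theorem dlmul [NT A] {b1 b2 : A} (h11 : b1 * b1 = 0) (h12 : b1 * b2 = 0) (h21 : b2 * b1 = 0)
    (x y : A) : dl b1 b2 x * dl b1 b2 y = 0 := by
  have hD := dl_isDer h12 h21
  have h := dldl h11 h12 h21 (x * y)
  rw [hD.mul, hD.add, hD.mul, hD.mul, dldl h11 h12 h21, dldl h11 h12 h21] at h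
  apply c2
  rw [zero_mul, mul_zero] at h
  linear_combination (norm := abel) h

/-- `vv b1 b2 b3 x = D_{12} [b3, x]` -/
theorem vv_eq [NT A] {b1 b2 b3 : A} (h12 : b1 * b2 = 0) (h21 : b2 * b1 = 0) (h31 : b3 * b1 = 0)
    (x : A) : dl b1 b2 (cm b3 x) = vv b1 b2 b3 x := by
  rw [(dl_isDer h12 h21).cm, dl_null h31 h12, cm_zero1, zero_add, vv]
theorem vv_s12 (b1 b2 b3 x : A) : vv b2 b1 b3 x = - vv b1 b2 b3 x := by
  rw [vv, vv, dl_swap b1 b2, cm_neg2]
theorem vv_s23 {b1 b2 b3 : A} (h12 : b1 * b2 = 0) (h21 : b2 * b1 = 0) (h13 : b1 * b3 = 0)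
    (h31 : b3 * b1 = 0) (h23 : b2 * b3 = 0) (h32 : b3 * b2 = 0) (x : A) :
    vv b1 b3 b2 x = - vv b1 b2 b3 x := by
  simp only [vv, cm]
  rw [dlb_s23 h12 h13 h23 h32, bdl_s23 h21 h31 h23 h32]; abel
theorem vv_cyc {b1 b2 b3 : A} (h12 : b1 * b2 = 0) (h21 : b2 * b1 = 0) (h13 : b1 * b3 = 0)
    (h31 : b3 * b1 = 0) (h23 : b2 * b3 = 0) (h32 : b3 * b2 = 0) (x : A) :
    vv b2 b3 b1 x = vv b1 b2 b3 x := by
  rw [vv_s23 h21 h12 h23 h32 h13 h31, vv_s12, neg_neg]

/-- `[b1,[b2,x]] - [b2,[b1,x]] = - 6 D_{12} x` for commuting `b1, b2` -/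
theorem cmcm {b1 b2 : A} (h : cm b1 b2 = 0) (x : A) :
    cm b1 (cm b2 x) - cm b2 (cm b1 x) = - (6 • dl b1 b2 x) := by
  have j := jacobi b1 b2 x
  rw [h, cm_zero1, zero_add, cm_swap b1 (cm b2 x), cm_swap b1 x, cm_neg1,
    cm_swap b2 (cm b1 x), neg_neg, ← asc_cyc x b1 b2 |>.symm] at j
  simp only [dl]
  linear_combination (norm := abel) -j

end null

end ASF
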