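import Pool.Agent.H71.ASF.StmtsM
import Pool.Agent.H73.ASF.GRI
import Pool.Agent.H87.ASF.GTE
import Pool.Agent.H45.ASF.KE2
import Pool.Agent.H45.ASF.KSY
import Pool.Agent.H45.ASF.KBE
import Pool.Agent.H87.ASF.KG3
import Pool.Agent.H70.ASF.KQ0
import Pool.Agent.H45.ASF.KNU
import Pool.Agent.H67.ASF.CTL
import Pool.Agent.H71.ASF.WR
import Pool.Agent.H70.ASF.WE1
import Pool.Agent.H49.ASF.WP
import Pool.Agent.H5.ASF.WX0
import Pool.Agent.H5.ASF.WCO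
import Pool.Agent.H33.ASF.WPH
import Pool.Agent.H5.ASF.WJO
import Pool.Agent.H53.ASF.WVV
import Pool.Agent.H53.ASF.WFS
import Pool.Agent.H53.ASF.WE0
import Pool.Agent.H62.ASF.WO1
import Pool.Agent.H70.ASF.NFA
import Pool.Agent.H25.ASF.NSL
import Pool.Agent.H25.ASF.NLM
import Pool.Agent.H76.ASF.IDW
import Pool.Agent.H76.ASF.IDP
import Pool.Agent.H16.ASF.INT
import Pool.Agent.H16.ASF.SK3
import Pool.Agent.H67.ASF.NL3
import Pool.Agent.H67.ASF.NW3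
import Pool.Agent.H16.ASF.NBC
import Pool.Agent.H16.ASF.NH4
import Pool.Agent.H15.ASF.SI1
import Pool.Agent.H23.ASF.OI3
import Pool.Agent.H67.ASF.CRU
import Pool.Agent.H70.ASF.CKP
import Pool.Agent.H15.ASF.CWO
import Pool.Agent.H7.ASF.CWH
import Pool.Agent.H16.ASF.ISO
import Pool.Agent.H7.ASF.QUO
import Pool.Agent.H76.ASF.ISV
import Pool.Agent.H15.ASF.IGP
import Pool.Agent.H76.ASF.DES
import Pool.Agent.H29.ASF.SWA
import Pool.Agent.H23.ASF.OPF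
import Pool.Agent.H23.ASF.OD1
import Pool.Agent.H23.ASF.OMM
import Pool.Agent.H23.ASF.ODS
import Pool.Agent.H23.ASF.ODK
import Pool.Agent.H23.ASF.ONU
import Pool.Agent.H16.ASF.TNU
import Pool.Agent.H90.ASF.TNI
import Pool.Agent.H79.ASF.CCH
import Pool.Agent.H79.ASF.CPI
import Pool.Agent.H15.ASF.SV3
import Pool.Agent.H16.ASF.SN0
import Pool.Agent.H15.ASF.SAL
import Pool.Agent.H90.ASF.BAS
import Pool.Agent.H15.ASF.DRI
import Pool.Agent.H15.ASF.SGR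
import Pool.Agent.H73.ASF.GCY
import Pool.Agent.H73.ASF.GSO

/-!
# Assembly of project ASF (MP_8ae111_al)
-/

namespace ASF

universe u v

/-- all modules together: the theorem for finite solvable groups of automorphisms -/
theorem gso_all : GSOStmt.{u,v} := by
  have hGRI : GRIStmt := gri
  have hGTE : GTEStmt.{u} := gte hGRI
  have hKE2 : KE2Stmt.{u} := ke2
  have hKSY : KSYStmt.{u} := ksy hKE2
  have hKBE : KBEStmt.{u} := kbe hKE2
  have hKG3 : KG3Stmt.{u} := kg3 hKE2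
  have hKQ0 : KQ0Stmt.{u} := kq0 hKBE hKSY hKG3
  have hKNU : KNUStmt.{u} := knu hKSY hKQ0
  have hCTL : CTLStmt.{u} := ctl
  have hWR7 : WR7Stmt.{u} := wr7 hKG3 hKQ0
  have hWE1 : WE1Stmt.{u} := we1 hKE2 hKQ0
  have hWAB : WABStmt.{u} := wab hKQ0
  have hWP1 : WP1Stmt.{u} := wp1 hKBE hKG3 hKQ0
  have hWP2 : WP2Stmt.{u} := wp2 hKBE hKG3 hKQ0 hWR7 hWP1
  have hWX0 : WX0Stmt.{u} := wx0 hWR7 hWE1 hWAB hWP2
  have hWCO : WCOStmt.{u} := wco hWX0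
  have hWPH : WPHStmt.{u} := wph hKE2
  have hWJO : WJOStmt.{u} := wjo hWPH
  have hWVV : WVVStmt.{u} := wvv hCTL hWCO hWJO
  have hWFS : WFSStmt.{u} := wfs
  have hWE0 : WE0Stmt.{u} := we0 hWX0
  have hWO1 : WO1Stmt.{u} := wo1 hWVV hWFS hWE0
  have hNFA : NFAStmt.{u} := nfa
  have hNSL : NSLStmt.{u} := nsl hNFA
  have hNLM : NLMStmt.{u} := nlm hNFA hNSL
  have hIDW : IDWStmt.{u} := idw
  have hIDP : IDPStmt.{u} := idp hIDW
  have hINT : INTStmt.{u} := int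
  have hSK3 : SK3Stmt.{u} := sk3 hWO1 hNLM hIDW hIDP hINT
  have hNL3 : NL3Stmt.{u} := nl3 hKBE
  have hNW3 : NW3Stmt.{u} := nw3 hNL3 hNLM
  have hNBC : NBCStmt.{u} := nbc hNW3
  have hNH4 : NH4Stmt.{u} := nh4 hCTL hNW3 hNBC
  have hSI1 : SI1Stmt.{u} := si1 hNH4 hIDW hIDP hINT
  have hOI3 : OI3Stmt.{u} := oi3
  have hCRU : CRUStmt.{u} := cru
  have hCKP : CKPStmt.{u} := ckp hCRU
  have hCWO : CWOStmt.{u} := cwo hCRU hCKP
  have hCWH : CWHStmt.{u} := cwh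
  have hISO : ISOStmt.{u} := iso
  have hQUO : QUOStmt.{u} := quo
  have hISV : ISVStmt.{u} := isv
  have hIGP : IGPStmt.{u} := igp
  have hDES : DESStmt.{u} := des hQUO hIDW hISV hIGP
  have hSWA : SWAStmt.{u} := swa hOI3 hCWO hCWH hIDW hIDP hISO hDES hINT
  have hOPF : OPFStmt.{u} := opf hNFA
  have hOD1 : OD1Stmt.{u} := od1 hOPF
  have hOMM : OMMStmt.{u} := omm hOPF hOD1
  have hODS : ODSStmt.{u} := ods hOPF hOMM hNSL
  have hODK : ODKStmt.{u} := odk hODS hNLM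
  have hSWB : SWBStmt.{u} := swb hODK hCWO hCWH hIDW hIDP hISO hDES hINT
  have hONU : ONUStmt.{u} := onu hOPF hOD1
  have hTNU : TNUStmt.{u} := tnu
  have hTNI : TNIStmt.{u} := tni hTNU hIDW hISO
  have hSWC : SWCStmt.{u} := swc hONU hCWO hCWH hTNI hIDW hISO hDES hINT
  have hCCH : CCHStmt.{u} := cch hCRU hCKP
  have hCPI : CPIStmt.{u} := cpi hCRU hCKP hCCH
  have hSV0 : SV0Stmt.{u} := sv0 hSWA hSWB hSWC hCPI hIDW hISO
  have hSV3 : SV3Stmt.{u} := sv3 hSI1 hSV0 hIDW hISO hISV hDES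
  have hSN0 : SN0Stmt.{u} := sn0 hSK3 hSV3 hIDW hISO hDES hINT
  have hSAL : SALStmt.{u} := sal hKNU hSN0 hTNI hIDW hISO hDES hINT
  have hBAS : BASStmt.{u} := bas
  have hDRI : DRIStmt.{u} := dri
  have hSGR : SGRStmt.{u} := sgr hSAL hBAS hDRI hQUO hIDW hISV hISO
  have hGCY : GCYStmt.{u} := gcy hGTE hSGR
  have hGSO : GSOStmt.{u,v} := gso hGCY
  exact hGSO

end ASF
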