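import Pool.Agent.H71.ASF.Tool2

/-!
# Statements of the modules of project ASF (MP_8ae111_al)

Plan with proofs: /team-store/ASF_PLAN.md
-/

namespace ASF

universe u

/-- three pairwise null elements (squares included) -/
structure N3 {A : Type*} [NonUnitalNonAssocRing A] (b1 b2 b3 : A) : Prop where
  h11 : b1 * b1 = 0
  h22 : b2 * b2 = 0
  h33 : b3 * b3 = 0
  h12 : b1 * b2 = 0
  h21 : b2 * b1 = 0
  h13 : b1 * b3 = 0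
  h31 : b3 * b1 = 0
  h23 : b2 * b3 = 0
  h32 : b3 * b2 = 0

theorem N3.cyc {A : Type*} [NonUnitalNonAssocRing A] {b1 b2 b3 : A} (h : N3 b1 b2 b3) :
    N3 b2 b3 b1 := ⟨h.h22, h.h33, h.h11, h.h23, h.h32, h.h21, h.h12, h.h31, h.h13⟩
theorem N3.s12 {A : Type*} [NonUnitalNonAssocRing A] {b1 b2 b3 : A} (h : N3 b1 b2 b3) :
    N3 b2 b1 b3 := ⟨h.h22, h.h11, h.h33, h.h21, h.h12, h.h23, h.h32, h.h13, h.h31⟩
theorem Null.n3 {A : Type*} [NonUnitalNonAssocRing A] {B : AddSubgroup A} (h : Null B)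
    {b1 b2 b3 : A} (h1 : b1 ∈ B) (h2 : b2 ∈ B) (h3 : b3 ∈ B) : N3 b1 b2 b3 :=
  ⟨h _ h1 _ h1, h _ h2 _ h2, h _ h3 _ h3, h _ h1 _ h2, h _ h2 _ h1, h _ h1 _ h3, h _ h3 _ h1,
    h _ h2 _ h3, h _ h3 _ h2⟩

/-! ## Block K: the nuclear function nu -/

/-- KE2 -/
def KE2Stmt : Prop := ∀ (A : Type u) [NonUnitalNonAssocRing A] [Alt A] [NT A] (b1 b2 : A),
  cm b1 b2 = 0 → ∀ w z : A,
    asc b1 (cm b2 w) z - asc b2 (cm b1 w) z = - (2 • cm (dl b1 b2 w) z) ∧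
    DS b1 (cm b2 w) z = DS b2 (cm b1 w) z

/-- KBE -/
def KBEStmt : Prop := ∀ (A : Type u) [NonUnitalNonAssocRing A] [Alt A] [NT A] (b1 b2 b3 : A),
  N3 b1 b2 b3 → ∀ x z : A,
    asc b3 (dl b1 b2 x) z + asc b1 (dl b2 b3 x) z + asc b2 (dl b3 b1 x) z = cm (vv b1 b2 b3 x) z

/-- KSY -/
def KSYStmt : Prop := ∀ (A : Type u) [NonUnitalNonAssocRing A] [Alt A] [NT A] (b1 b2 b3 : A),
  N3 b1 b2 b3 → ∀ x y : A, nu b1 b2 b3 x y = nu b1 b2 b3 y x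

/-- KG3 -/
def KG3Stmt : Prop := ∀ (A : Type u) [NonUnitalNonAssocRing A] [Alt A] [NT A] (b1 b2 b3 : A),
  N3 b1 b2 b3 → ∀ x y z : A,
    3 • DS x (vv b1 b2 b3 y) z =
      (DS (dl b1 b2 x) (cm b3 y) z + DS (dl b2 b3 x) (cm b1 y) z + DS (dl b3 b1 x) (cm b2 y) z) +
      2 • (DS (dl b1 b2 y) (cm b3 x) z + DS (dl b2 b3 y) (cm b1 x) z
        + DS (dl b3 b1 y) (cm b2 x) z)

/-- KQ0 -/
def KQ0Stmt : Prop := ∀ (A : Type u) [NonUnitalNonAssocRing A] [Alt A] [NT A] (b1 b2 b3 : A),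
  N3 b1 b2 b3 → ∀ x y z : A,
    XX b1 b2 b3 x y z + XX b1 b2 b3 y x z = cm (nu b1 b2 b3 x y) z

/-- KNU -/
def KNUStmt : Prop := ∀ (A : Type u) [NonUnitalNonAssocRing A] [Alt A] [NT A] (b1 b2 b3 : A),
  N3 b1 b2 b3 → ∀ x y : A, Nuc (nu b1 b2 b3 x y)

/-! ## Block W: the case nu = 0 -/

/-- a null triple with `nu = 0` -/
structure T0 {A : Type*} [NonUnitalNonAssocRing A] (b1 b2 b3 : A) : Prop where
  n : N3 b1 b2 b3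
  z : ∀ x y, nu b1 b2 b3 x y = 0

/-- `aa x z y = Σ_cyc [D_{12} x, [z, [b3, y]]]` -/
def aa {A : Type*} [NonUnitalNonAssocRing A] (b1 b2 b3 x z y : A) : A :=
  cm (dl b1 b2 x) (cm z (cm b3 y)) + cm (dl b2 b3 x) (cm z (cm b1 y))
    + cm (dl b3 b1 x) (cm z (cm b2 y))

/-- `ww y x z = Σ_cyc [D_{12} y, (b3, x, z)]` -/
def ww {A : Type*} [NonUnitalNonAssocRing A] (b1 b2 b3 y x z : A) : A :=
  cm (dl b1 b2 y) (asc b3 x z) + cm (dl b2 b3 y) (asc b1 x z) + cm (dl b3 b1 y) (asc b2 x z)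

/-- WR7 -/
def WR7Stmt : Prop := ∀ (A : Type u) [NonUnitalNonAssocRing A] [Alt A] [NT A] (b1 b2 b3 : A),
  T0 b1 b2 b3 → ∀ x y z : A,
    XX b1 b2 b3 y x z = - XX b1 b2 b3 x y z ∧
    cm (cm x (vv b1 b2 b3 y)) z - 3 • asc x (vv b1 b2 b3 y) z = XX b1 b2 b3 x y z

/-- WE1 -/
def WE1Stmt : Prop := ∀ (A : Type u) [NonUnitalNonAssocRing A] [Alt A] [NT A] (b1 b2 b3 : A),
  T0 b1 b2 b3 → ∀ x y z : A,
    aa b1 b2 b3 x z y - aa b1 b2 b3 y z x = 6 • XX b1 b2 b3 x y z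

/-- WAB -/
def WABStmt : Prop := ∀ (A : Type u) [NonUnitalNonAssocRing A] [Alt A] [NT A] (b1 b2 b3 : A),
  T0 b1 b2 b3 → ∀ x y z : A,
    (aa b1 b2 b3 x y z - aa b1 b2 b3 y x z
      = 6 • XX b1 b2 b3 x z y - 6 • XX b1 b2 b3 y z x) ∧
    (aa b1 b2 b3 x y z - aa b1 b2 b3 x z y = 6 • ww b1 b2 b3 x y z)

/-- WP1 -/
def WP1Stmt : Prop := ∀ (A : Type u) [NonUnitalNonAssocRing A] [Alt A] [NT A] (b1 b2 b3 : A),
  T0 b1 b2 b3 → ∀ x y z : A,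
    asc b3 (cm (dl b1 b2 y) x) z + asc b1 (cm (dl b2 b3 y) x) z + asc b2 (cm (dl b3 b1 y) x) z
      = cm (cm x (vv b1 b2 b3 y)) z

/-- WP2 -/
def WP2Stmt : Prop := ∀ (A : Type u) [NonUnitalNonAssocRing A] [Alt A] [NT A] (b1 b2 b3 : A),
  T0 b1 b2 b3 → ∀ x y z : A,
    ww b1 b2 b3 y x z = XX b1 b2 b3 x y z + XX b1 b2 b3 y z x

/-- WX0 -/
def WX0Stmt : Prop := ∀ (A : Type u) [NonUnitalNonAssocRing A] [Alt A] [NT A] (b1 b2 b3 : A),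
  T0 b1 b2 b3 → ∀ x y z : A, XX b1 b2 b3 x y z = 0

/-- null additive subgroup with `nu = 0` -/
structure NB0 {A : Type*} [NonUnitalNonAssocRing A] (B : AddSubgroup A) : Prop where
  n : Null B
  z : ∀ b1 ∈ B, ∀ b2 ∈ B, ∀ b3 ∈ B, ∀ x y, nu b1 b2 b3 x y = 0

theorem NB0.t {A : Type*} [NonUnitalNonAssocRing A] {B : AddSubgroup A} (h : NB0 B)
    {b1 b2 b3 : A} (h1 : b1 ∈ B) (h2 : b2 ∈ B) (h3 : b3 ∈ B) : T0 b1 b2 b3 :=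
  ⟨h.n.n3 h1 h2 h3, h.z _ h1 _ h2 _ h3⟩

/-- WCO -/
def WCOStmt : Prop := ∀ (A : Type u) [NonUnitalNonAssocRing A] [Alt A] [NT A]
  (B : AddSubgroup A), NB0 B → ∀ b1 ∈ B, ∀ b2 ∈ B, ∀ b3 ∈ B, ∀ b4 ∈ B, ∀ x y : A,
    cm (dl b1 b2 x) (dl b3 b4 y) + cm (dl b2 b3 x) (dl b1 b4 y)
      + cm (dl b3 b1 x) (dl b2 b4 y) = 0

/-- WPH -/
def WPHStmt : Prop := ∀ (A : Type u) [NonUnitalNonAssocRing A] [Alt A] [NT A] (b1 b2 b3 : A),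
  N3 b1 b2 b3 → ∀ x y : A,
    cm b3 y * dl b1 b2 x + cm b1 y * dl b2 b3 x + cm b2 y * dl b3 b1 x
      = cm b3 x * dl b1 b2 y + cm b1 x * dl b2 b3 y + cm b2 x * dl b3 b1 y

/-- WJO -/
def WJOStmt : Prop := ∀ (A : Type u) [NonUnitalNonAssocRing A] [Alt A] [NT A]
  (B : AddSubgroup A), NB0 B → ∀ b1 ∈ B, ∀ b2 ∈ B, ∀ b3 ∈ B, ∀ b4 ∈ B, ∀ x y : A,
    jo (dl b1 b2 x) (dl b3 b4 y) + jo (dl b2 b3 x) (dl b1 b4 y)
      + jo (dl b3 b1 x) (dl b2 b4 y) = 0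

/-- CTL: a curvature-like tensor vanishing on `(b,c,b,c)` is zero -/
def CTLStmt : Prop := ∀ (M : Type u) [AddCommGroup M] (N : Type u) [AddCommGroup N]
  (B : AddSubgroup M) (G : M → M → M → M → N),
  (∀ x : N, x + x = 0 → x = 0) → (∀ x : N, x + x + x = 0 → x = 0) →
  (∀ a ∈ B, ∀ a' ∈ B, ∀ b ∈ B, ∀ c ∈ B, ∀ d ∈ B, G (a + a') b c d = G a b c d + G a' b c d) →
  (∀ a ∈ B, ∀ b ∈ B, ∀ c ∈ B, ∀ c' ∈ B, ∀ d ∈ B, G a b (c + c') d = G a b c d + G a b c' d) →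
  (∀ a ∈ B, ∀ b ∈ B, ∀ c ∈ B, ∀ d ∈ B, G b a c d = - G a b c d) →
  (∀ a ∈ B, ∀ b ∈ B, ∀ c ∈ B, ∀ d ∈ B, G a b d c = - G a b c d) →
  (∀ a ∈ B, ∀ b ∈ B, ∀ c ∈ B, ∀ d ∈ B, G a b c d + G b c a d + G c a b d = 0) →
  (∀ a ∈ B, ∀ b ∈ B, G a b a b = 0) →
  ∀ a ∈ B, ∀ b ∈ B, ∀ c ∈ B, ∀ d ∈ B, G a b c d = 0

/-- WVV -/
def WVVStmt : Prop := ∀ (A : Type u) [NonUnitalNonAssocRing A] [Alt A] [NT A]
  (B : AddSubgroup A), NB0 B → ∀ b1 ∈ B, ∀ b2 ∈ B, ∀ b3 ∈ B, ∀ b4 ∈ B, ∀ x y : A,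
    dl b1 b2 x * dl b3 b4 y = 0

/-- the properties of `F = FF b1 b2 b3 b4` and of `F' = FF b3 b4 b1 b2` -/
structure FProp {A : Type*} [NonUnitalNonAssocRing A] (b1 b2 b3 b4 : A) : Prop where
  der : ∀ x y, IsDer (FF b1 b2 b3 b4 x y)
  skew : ∀ x y a, FF b1 b2 b3 b4 y x a = - FF b1 b2 b3 b4 x y a
  cyc : ∀ x y a, FF b1 b2 b3 b4 x y a + FF b1 b2 b3 b4 y a x + FF b1 b2 b3 b4 a x y = 0
  pair : ∀ x y a, FF b3 b4 b1 b2 x y a = FF b1 b2 b3 b4 x y a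
  ap_q : ∀ x y a, (a * dl b1 b2 x) * dl b3 b4 y = FF b1 b2 b3 b4 x y a
  p_qa : ∀ x y a, dl b1 b2 x * (dl b3 b4 y * a) = - FF b1 b2 b3 b4 x y a
  pa_q : ∀ x y a, (dl b1 b2 x * a) * dl b3 b4 y = - FF b1 b2 b3 b4 a y x
  p_aq : ∀ x y a, dl b1 b2 x * (a * dl b3 b4 y) = FF b1 b2 b3 b4 x a y

/-- WFS -/
def WFSStmt : Prop := ∀ (A : Type u) [NonUnitalNonAssocRing A] [Alt A] [NT A]
  (B : AddSubgroup A), Null B →
  (∀ b1 ∈ B, ∀ b2 ∈ B, ∀ b3 ∈ B, ∀ b4 ∈ B, ∀ x y : A, dl b1 b2 x * dl b3 b4 y = 0) →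
  ∀ b1 ∈ B, ∀ b2 ∈ B, ∀ b3 ∈ B, ∀ b4 ∈ B, FProp b1 b2 b3 b4

/-- WE0 -/
def WE0Stmt : Prop := ∀ (A : Type u) [NonUnitalNonAssocRing A] [Alt A] [NT A]
  (B : AddSubgroup A), NB0 B → ∀ b1 ∈ B, ∀ b2 ∈ B, ∀ b3 ∈ B, ∀ b4 ∈ B, ∀ b5 ∈ B, ∀ x y z : A,
    asc (dl b1 b2 x * b3) (dl b4 b5 y) z = 0 ∧ asc (b3 * dl b1 b2 x) (dl b4 b5 y) z = 0

/-- WO1 -/
def WO1Stmt : Prop := ∀ (A : Type u) [NonUnitalNonAssocRing A] [Alt A] [NT A]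
  (B : AddSubgroup A), NB0 B → ∀ b1 ∈ B, ∀ b2 ∈ B, ∀ b3 ∈ B, ∀ b4 ∈ B, ∀ b5 ∈ B, ∀ x y : A,
    O1 (dl b1 b2 y) (dl b3 b4 x * b5) ∧ O1 (dl b1 b2 y) (b5 * dl b3 b4 x)

/-! ## Block N: Lemma N (tensor version) and Lemma L3 -/

/-- facts valid for a first level orthogonal tensor, with
`φ(a,c) = Σ (r,a,c) s` and `ψ(a,c) = Σ s (r,a,c)` -/
structure O1Fact {A : Type*} [NonUnitalNonAssocRing A] {ι : Type} [Fintype ι] (r s : ι → A) :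
    Prop where
  as0 : ∀ a, ∑ k, asc (r k) (s k) a = 0
  r_sac : ∀ a c, ∑ k, r k * asc (s k) a c = - ∑ k, asc (r k) a c * s k
  sac_r : ∀ a c, ∑ k, asc (s k) a c * r k = - ∑ k, s k * asc (r k) a c
  ar_s_c : ∀ a c, ∑ k, asc (a * r k) (s k) c = ∑ k, asc (r k) a c * s k
  ra_s_c : ∀ a c, ∑ k, asc (r k * a) (s k) c = ∑ k, s k * asc (r k) a c
  as_r_c : ∀ a c, ∑ k, asc (a * s k) (r k) c = - ∑ k, s k * asc (r k) a c
  sa_r_c : ∀ a c, ∑ k, asc (s k * a) (r k) c = - ∑ k, asc (r k) a c * s k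
  rac_s : ∀ a c, ∑ k, ((r k * a) * c) * s k = ∑ k, asc (r k) a c * s k
  s_rac : ∀ a c, ∑ k, s k * ((r k * a) * c) = ∑ k, s k * asc (r k) a c
  arc_s : ∀ a c, ∑ k, ((a * r k) * c) * s k
    = - ∑ k, asc (r k) a c * s k - ∑ k, s k * asc (r k) a c
  s_arc : ∀ a c, ∑ k, s k * ((a * r k) * c) = ∑ k, asc (r k) a c * s k

/-- NFA -/
def NFAStmt : Prop := ∀ (A : Type u) [NonUnitalNonAssocRing A] [Alt A] (ι : Type) [Fintype ι]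
  (r s : ι → A), O1F r s → O1Fact r s

/-- NSL -/
def NSLStmt : Prop := ∀ (A : Type u) [NonUnitalNonAssocRing A] [Alt A] (ι : Type) [Fintype ι]
  (r s : ι → A), O1F r s → (∀ a c, ∑ k, asc (r k) a c * s k = 0) →
  (∀ a c, ∑ k, s k * asc (r k) a c = 0) →
  ∀ a : A, O1F r (fun k => s k * a) ∧ O1F r (fun k => a * s k) ∧
    O1F (fun k => r k * a) s ∧ O1F (fun k => a * r k) s

/-- NLM: Lemma N -/
def NLMStmt : Prop := ∀ (A : Type u) [NonUnitalNonAssocRing A] [Alt A] [NT A] (ι : Type)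
  [Fintype ι] (D : ι → A → A) (p : ι → A), (∀ k, IsDer (D k)) →
  (∀ x, O1F (fun k => D k x) p) → ∀ (x : A) (l m : List (Bool × A)),
    ∑ k, wd l (D k x) * wd m (p k) = 0 ∧ ∑ k, wd m (p k) * wd l (D k x) = 0

/-- the hypothesis of Lemma L3 -/
structure L3H {A : Type*} [NonUnitalNonAssocRing A] (b1 b2 b3 : A) : Prop where
  n : N3 b1 b2 b3
  r3 : ∀ x, dl b1 b2 x * b3 = 0
  l3 : ∀ x, b3 * dl b1 b2 x = 0
  r1 : ∀ x, dl b2 b3 x * b1 = 0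
  l1 : ∀ x, b1 * dl b2 b3 x = 0
  r2 : ∀ x, dl b3 b1 x * b2 = 0
  l2 : ∀ x, b2 * dl b3 b1 x = 0

/-- NL3 -/
def NL3Stmt : Prop := ∀ (A : Type u) [NonUnitalNonAssocRing A] [Alt A] [NT A] (b1 b2 b3 : A),
  L3H b1 b2 b3 → ∀ x : A,
    O1F (![dl b1 b2 x, dl b2 b3 x, dl b3 b1 x] : Fin 3 → A) ![b3, b1, b2]

/-- NW3 -/
def NW3Stmt : Prop := ∀ (A : Type u) [NonUnitalNonAssocRing A] [Alt A] [NT A] (b1 b2 b3 : A),
  L3H b1 b2 b3 → ∀ (x : A) (l m : List (Bool × A)),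
    wd l (dl b1 b2 x) * wd m b3 + wd l (dl b2 b3 x) * wd m b1 + wd l (dl b3 b1 x) * wd m b2 = 0 ∧
    wd m b3 * wd l (dl b1 b2 x) + wd m b1 * wd l (dl b2 b3 x) + wd m b2 * wd l (dl b3 b1 x) = 0

/-- NBC -/
def NBCStmt : Prop := ∀ (A : Type u) [NonUnitalNonAssocRing A] [Alt A] [NT A] (b c : A),
  b * b = 0 → c * c = 0 → b * c = 0 → c * b = 0 → ∀ x y : A,
  dl b c ((x * b) * y) = 0 → dl b c ((x * c) * y) = 0 → ∀ (l m : List (Bool × A)),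
    wd l (dl b c x) * wd m (dl b c y) = 0 ∧ wd m (dl b c y) * wd l (dl b c x) = 0

/-- NH4: in the case `V_3 = 0` -/
def NH4Stmt : Prop := ∀ (A : Type u) [NonUnitalNonAssocRing A] [Alt A] [NT A]
  (B : AddSubgroup A) (X Y : AddSubgroup A), Null B →
  (∀ b1 ∈ B, ∀ b2 ∈ B, ∀ b3 ∈ B, ∀ x : A, dl b1 b2 x * b3 = 0 ∧ b3 * dl b1 b2 x = 0) →
  (∀ b1 ∈ B, ∀ b2 ∈ B, ∀ b ∈ B, ∀ x ∈ X, ∀ y ∈ Y, dl b1 b2 ((x * b) * y) = 0) →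
  ∀ b1 ∈ B, ∀ b2 ∈ B, ∀ b3 ∈ B, ∀ b4 ∈ B, ∀ x ∈ X, ∀ y ∈ Y, ∀ (l m : List (Bool × A)),
    wd l (dl b1 b2 x) * wd m (dl b3 b4 y) = 0 ∧ wd m (dl b3 b4 y) * wd l (dl b1 b2 x) = 0

/-! ## Block O: first level orthogonal pairs (Lemma X'') -/

/-- facts for a first level orthogonal pair -/
structure O1P {A : Type*} [NonUnitalNonAssocRing A] (r s : A) : Prop where
  as0 : ∀ a, asc r s a = 0
  r_sac : ∀ a c, r * asc s a c = - (asc r a c * s)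
  sac_r : ∀ a c, asc s a c * r = - (s * asc r a c)
  ar_s_c : ∀ a c, asc (a * r) s c = asc r a c * s
  ra_s_c : ∀ a c, asc (r * a) s c = s * asc r a c
  as_r_c : ∀ a c, asc (a * s) r c = - (s * asc r a c)
  sa_r_c : ∀ a c, asc (s * a) r c = - (asc r a c * s)
  phi_der : ∀ a, IsDer (fun c => asc r a c * s)
  psi_der : ∀ a, IsDer (fun c => s * asc r a c)
  phi_der' : ∀ c, IsDer (fun a => asc r a c * s)
  psi_der' : ∀ c, IsDer (fun a => s * asc r a c)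

/-- OPF -/
def OPFStmt : Prop := ∀ (A : Type u) [NonUnitalNonAssocRing A] [Alt A] [NT A] (r s : A),
  O1 r s → O1P r s

/-- OD1 -/
def OD1Stmt : Prop := ∀ (A : Type u) [NonUnitalNonAssocRing A] [Alt A] [NT A] (r s : A),
  O1 r s → ∀ a c z : A,
    asc (asc r a c) s z + asc (asc r a z) s c + cm (asc r c z * s) a
      - 2 • cm (asc r a z * s) c = 0 ∧
    asc (asc r a c) s z + asc (asc r a z) s c - cm (s * asc r c z) a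
      + 2 • cm (s * asc r a z) c = 0

/-- ONU -/
def ONUStmt : Prop := ∀ (A : Type u) [NonUnitalNonAssocRing A] [Alt A] [NT A] (r s : A),
  O1 r s → ∀ a c : A, Nuc (asc r a c * s) ∧ Nuc (s * asc r a c)

/-- OMM -/
def OMMStmt : Prop := ∀ (A : Type u) [NonUnitalNonAssocRing A] [Alt A] [NT A] (r s : A),
  O1 r s → (∀ a c, asc r a c * s = 0) → (∀ a c, s * asc r a c = 0) →
  ∀ a x c : A, asc (DS r a x) s c = 0

/-- ODS -/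
def ODSStmt : Prop := ∀ (A : Type u) [NonUnitalNonAssocRing A] [Alt A] [NT A] (r s : A),
  O1 r s → (∀ a c, asc r a c * s = 0) → (∀ a c, s * asc r a c = 0) →
  ∀ a x : A, O1 (DS r a x) s

/-- ODK -/
def ODKStmt : Prop := ∀ (A : Type u) [NonUnitalNonAssocRing A] [Alt A] [NT A] (r s : A),
  O1 r s → (∀ a c, asc r a c * s = 0) → (∀ a c, s * asc r a c = 0) →
  ∀ (a x : A) (l m : List (Bool × A)),
    wd l (DS r a x) * wd m s = 0 ∧ wd m s * wd l (DS r a x) = 0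

/-- OIII -/
def OI3Stmt : Prop := ∀ (A : Type u) [NonUnitalNonAssocRing A] [Alt A] [NT A] (r s : A),
  O1 r s → (∀ a x, DS r a x = 0) → ∀ (l m : List (Bool × A)),
    wd l r * wd m s = 0 ∧ wd m s * wd l r = 0

/-! ## Block C: the case V = 0 -/

/-- null additive subgroup with `(A,B,B) = 0` -/
structure VZ {A : Type*} [NonUnitalNonAssocRing A] (B : AddSubgroup A) : Prop where
  n : Null B
  z : ∀ b ∈ B, ∀ c ∈ B, ∀ x, asc x b c = 0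

/-- `z` is killed by all `b z d` -/
def KP {A : Type*} [NonUnitalNonAssocRing A] (B : AddSubgroup A) (z : A) : Prop :=
  ∀ b ∈ B, ∀ d ∈ B, (b * z) * d = 0

/-- CRU -/
def CRUStmt : Prop := ∀ (A : Type u) [NonUnitalNonAssocRing A] [Alt A] (B : AddSubgroup A),
  VZ B → ∀ b ∈ B, ∀ c ∈ B, ∀ x y : A,
    (x * b) * c = 0 ∧ c * (b * x) = 0 ∧ (b * x) * c = b * (x * c) ∧
    asc (x * b) y c = b * asc x y c ∧ asc (b * x) y c = asc x y c * b ∧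
    c * asc b x y = - (asc c x y * b)

/-- CKP -/
def CKPStmt : Prop := ∀ (A : Type u) [NonUnitalNonAssocRing A] [Alt A] (B : AddSubgroup A),
  VZ B → ∀ b ∈ B, ∀ c ∈ B, ∀ x y : A,
    KP B (x * b) ∧ KP B (b * x) ∧ KP B (asc x y b) ∧ KP B (x * (y * b)) ∧ KP B ((b * x) * y) ∧
    (∀ d ∈ B, (((b * x) * c) * y) * d = (b * (x * (c * y))) * d) ∧
    (∀ d ∈ B, d * (y * ((b * x) * c)) = (d * ((y * b) * x)) * c) ∧
    (∀ z : A, KP B z → KP B (z * (b * x))) ∧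
    (∀ a : A, ∀ d ∈ B, KP B ((x * (c * a)) * (d * y) - x * (c * (a * (d * y)))))

/-- chain of multiplications `w ↦ (w a) d` -/
def chn {A : Type*} [NonUnitalNonAssocRing A] : A → List (A × A) → A
  | w, [] => w
  | w, (a, d) :: l => chn ((w * a) * d) l

/-- CCH: chains of total degree zero vanish; `Z` is the zero component, an additive
subgroup with `B Z ⊆ B` -/
def CCHStmt : Prop := ∀ (A : Type u) [NonUnitalNonAssocRing A] [Alt A] (B : AddSubgroup A)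
  (q : ℕ) (C : ZMod q → AddSubgroup A), VZ B →
  (∀ i j, ∀ x ∈ C i, ∀ y ∈ C j, x * y ∈ C (i + j)) → (∀ b ∈ B, b ∈ C 0) →
  (∀ a ∈ C 0, ∀ b ∈ B, a * b ∈ B ∧ b * a ∈ B) →
  ∀ (l : List (A × A)) (n : List (ZMod q)), l ≠ [] → l.length = n.length →
  (∀ p ∈ l.zip n, p.1.1 ∈ C p.2 ∧ p.1.2 ∈ B) → n.sum = 0 →
  (∀ b ∈ B, chn b l = 0) ∧ (∀ b ∈ B, ∀ c ∈ B, ∀ x : A, chn ((b * x) * c) l = 0)

end ASF
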