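import Pool.Agent.H71.ASF.Stmts

/-!
# Statements of the modules of project ASF, module level (MP_8ae111_al)

Plan with proofs: /team-store/ASF_PLAN.md
-/

namespace ASF

universe u v

/-! ## Block I: ideals, quotients -/

/-- QUO: quotient by an ideal -/
def QUOStmt : Prop := ∀ (R : Type) [CommRing R] (A : Type u) [NonUnitalNonAssocRing A]
  [Module R A] [IsScalarTower R A A] [SMulCommClass R A A] [Alt A] (K : Submodule R A),
  IsIdl K → ∃ (A' : Type u) (_ : NonUnitalNonAssocRing A') (_ : Module R A')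
    (_ : IsScalarTower R A' A') (_ : SMulCommClass R A' A') (_ : Alt A') (π : A →ₗ[R] A'),
    (∀ x y, π (x * y) = π x * π y) ∧ Function.Surjective π ∧ ∀ x, π x = 0 ↔ x ∈ K

/-- INT: a module over a ring in which 6 is a unit has no 2- and 3-torsion -/
def INTStmt : Prop := ∀ (R : Type) [CommRing R] (A : Type u) [NonUnitalNonAssocRing A]
  [Module R A], IsUnit (6 : R) → NT A

/-- IDW: the ideal generated by a set is spanned by words -/
def IDWStmt : Prop := ∀ (R : Type) [CommRing R] (A : Type u) [NonUnitalNonAssocRing A]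
  [Module R A] [IsScalarTower R A A] [SMulCommClass R A A] (S : Set A),
  IsIdl (Idl R S) ∧ S ⊆ Idl R S ∧ (∀ I : Submodule R A, IsIdl I → S ⊆ I → Idl R S ≤ I) ∧
  Idl R S = Submodule.span R {z | ∃ s ∈ S, ∃ l : List (Bool × A), z = wd l s}

/-- IDP: products of ideals generated by sets -/
def IDPStmt : Prop := ∀ (R : Type) [CommRing R] (A : Type u) [NonUnitalNonAssocRing A]
  [Module R A] [IsScalarTower R A A] [SMulCommClass R A A] (S T : Set A),
  (∀ x ∈ S, ∀ y ∈ T, ∀ l m : List (Bool × A), wd l x * wd m y = 0) →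
  ∀ x ∈ Idl R S, ∀ y ∈ Idl R T, x * y = 0

/-- ISV: solvable extensions. `π` is a multiplicative surjection with kernel `K` -/
def ISVStmt : Prop := ∀ (R : Type) [CommRing R] (A : Type u) [NonUnitalNonAssocRing A]
  [Module R A] [IsScalarTower R A A] [SMulCommClass R A A] (A' : Type u)
  [NonUnitalNonAssocRing A'] [Module R A'] [IsScalarTower R A' A'] [SMulCommClass R A' A']
  (π : A →ₗ[R] A'), (∀ x y, π (x * y) = π x * π y) → Function.Surjective π →
  (∀ S : Set A, (Idl R S).map π = Idl R (π '' S)) ∧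
  (∀ (I : Submodule R A) (n : ℕ), (der I n).map π = der (I.map π) n) ∧
  (∀ (I : Submodule R A) (n : ℕ), der (I.map π) n = ⊥ → ∀ x ∈ der I n, π x = 0)

/-- ISO: elementary facts on solvability -/
def ISOStmt : Prop := ∀ (R : Type) [CommRing R] (A : Type u) [NonUnitalNonAssocRing A]
  [Module R A] [IsScalarTower R A A] [SMulCommClass R A A],
  (∀ I J : Submodule R A, I ≤ J → ∀ n, der I n ≤ der J n) ∧
  (∀ (I : Submodule R A) (m n : ℕ), der (der I m) n = der I (m + n)) ∧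
  (∀ (I K : Submodule R A) (m : ℕ), der I m ≤ K → Solv K → Solv I) ∧
  (∀ I : Submodule R A, (∀ x ∈ I, ∀ y ∈ I, x * y = 0) → Solv I)

/-- DRI: in an alternative algebra the terms of the derived series of a subalgebra `C` are
ideals of `C` -/
def DRIStmt : Prop := ∀ (R : Type) [CommRing R] (A : Type u) [NonUnitalNonAssocRing A]
  [Module R A] [IsScalarTower R A A] [SMulCommClass R A A] [Alt A] (C : Submodule R A),
  (∀ x ∈ C, ∀ y ∈ C, x * y ∈ C) → ∀ n, der C n ≤ C ∧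
    ∀ x ∈ der C n, ∀ a ∈ C, a * x ∈ der C n ∧ x * a ∈ der C n

/-- IGP: quotients of `GP` -/
def IGPStmt : Prop := ∀ (R : Type) [CommRing R] (A : Type u) [NonUnitalNonAssocRing A]
  [Module R A] [IsScalarTower R A A] [SMulCommClass R A A] (A' : Type u)
  [NonUnitalNonAssocRing A'] [Module R A'] [IsScalarTower R A' A'] [SMulCommClass R A' A']
  (π : A →ₗ[R] A') (q : ℕ) (𝒜 : ZMod q → Submodule R A) (B : Submodule R A),
  (∀ x y, π (x * y) = π x * π y) → Function.Surjective π → GP q 𝒜 B →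
  GP q (fun i => (𝒜 i).map π) (B.map π)

/-- DES: descent. To show that a power of the derived series of `Idl B` lies in the ideal `K` one
may pass to the quotient -/
def DESStmt : Prop := ∀ (R : Type) [CommRing R] (A : Type u) [NonUnitalNonAssocRing A]
  [Module R A] [IsScalarTower R A A] [SMulCommClass R A A] [Alt A] (q : ℕ)
  (𝒜 : ZMod q → Submodule R A) (B K : Submodule R A), GP q 𝒜 B → IsIdl K →
  (∀ (A' : Type u) (_ : NonUnitalNonAssocRing A') (_ : Module R A')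
    (_ : IsScalarTower R A' A') (_ : SMulCommClass R A' A') (_ : Alt A') (π : A →ₗ[R] A'),
    (∀ x y, π (x * y) = π x * π y) → Function.Surjective π → (∀ x, π x = 0 ↔ x ∈ K) →
    GP q (fun i => (𝒜 i).map π) (B.map π) → Solv (Idl R (B.map π : Set A'))) →
  ∃ m, der (Idl R (B : Set A)) m ≤ K

/-! ## Block T: the nucleus -/

/-- TNU: nuclear elements -/
def TNUStmt : Prop := ∀ (A : Type u) [NonUnitalNonAssocRing A] [Alt A] (n : A), Nuc n →
  ∀ a b c : A, asc a n b = 0 ∧ asc a b n = 0 ∧ Nuc (cm n a) ∧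
    asc (n * a) b c = n * asc a b c ∧ (∀ m : A, Nuc m → Nuc (n * m)) ∧
    (∀ m : A, Nuc m → Nuc (n + m)) ∧ Nuc (-n) ∧ cm a (n * b) = cm a n * b + n * cm a b

/-- TNI: the ideal generated by the homogeneous nuclear elements is solvable -/
def TNIStmt : Prop := ∀ (R : Type) [CommRing R] (A : Type u) [NonUnitalNonAssocRing A]
  [Module R A] [IsScalarTower R A A] [SMulCommClass R A A] [Alt A] (q : ℕ) [NeZero q]
  (𝒜 : ZMod q → Submodule R A), Grd q 𝒜 → Solv (𝒜 0) →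
  Solv (Idl R {n : A | Nuc n ∧ ∃ i, n ∈ 𝒜 i})

/-! ## Block B: the base case -/

/-- BAS: `𝒜 0 = 0` implies that `A` is solvable -/
def BASStmt : Prop := ∀ (R : Type) [CommRing R] (A : Type u) [NonUnitalNonAssocRing A]
  [Module R A] [IsScalarTower R A A] [SMulCommClass R A A] [Alt A] (q : ℕ) [NeZero q]
  (𝒜 : ZMod q → Submodule R A), Grd q 𝒜 → 𝒜 0 = ⊥ → Solv (⊤ : Submodule R A)

/-! ## Block S: the steps of the main theorem.  `GOAL P` reads: for all graded pairs with the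
property `P` the ideal generated by `B` is solvable -/

/-- chains: `WW B q = 0` when `V = 0` -/
def CPIStmt : Prop := ∀ (R : Type) [CommRing R] (A : Type u) [NonUnitalNonAssocRing A]
  [Module R A] [IsScalarTower R A A] [SMulCommClass R A A] [Alt A] (q : ℕ) [NeZero q]
  (𝒜 : ZMod q → Submodule R A) (B : Submodule R A), GP q 𝒜 B →
  (∀ b ∈ B, ∀ c ∈ B, ∀ x : A, asc x b c = 0) → WW B q = ⊥

/-- CWO: the last nonzero `WW B k` is first level orthogonal to `B` -/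
def CWOStmt : Prop := ∀ (R : Type) [CommRing R] (A : Type u) [NonUnitalNonAssocRing A]
  [Module R A] [IsScalarTower R A A] [SMulCommClass R A A] [Alt A] (B : Submodule R A),
  (∀ b ∈ B, ∀ c ∈ B, b * c = 0) → (∀ b ∈ B, ∀ c ∈ B, ∀ x : A, asc x b c = 0) →
  ∀ k, WW B (k + 1) = ⊥ → ∀ r ∈ WW B k, ∀ s ∈ B, O1 r s

/-- CWH: `WW B k` is spanned by homogeneous elements, lies in the ideal generated by `B`, and is
compatible with surjections -/
def CWHStmt : Prop := ∀ (R : Type) [CommRing R] (A : Type u) [NonUnitalNonAssocRing A]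
  [Module R A] [IsScalarTower R A A] [SMulCommClass R A A] (q : ℕ)
  (𝒜 : ZMod q → Submodule R A) (B : Submodule R A), GP q 𝒜 B →
  (∀ k, WW B k ≤ Submodule.span R {r | r ∈ WW B k ∧ ∃ i, r ∈ 𝒜 i}) ∧
  (∀ k, WW B k ≤ Idl R (B : Set A)) ∧
  (∀ (A' : Type u) [NonUnitalNonAssocRing A'] [Module R A'] [IsScalarTower R A' A']
    [SMulCommClass R A' A'] (π : A →ₗ[R] A'), (∀ x y, π (x * y) = π x * π y) →
    Function.Surjective π → ∀ k, (WW B k).map π = WW (B.map π) k)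

/-- SWA: from the claim for `WW B k = 0` to the claim for `WW B (k+1) = 0` plus `D_{r,a} = 0` -/
def SWAStmt : Prop := ∀ (R : Type) [CommRing R], IsUnit (6 : R) → ∀ (q : ℕ) [NeZero q] (k : ℕ),
  (∀ (A : Type u) [NonUnitalNonAssocRing A]
    [Module R A] [IsScalarTower R A A] [SMulCommClass R A A] [Alt A]
    (𝒜 : ZMod q → Submodule R A) (B : Submodule R A), GP q 𝒜 B →
    (∀ b ∈ B, ∀ c ∈ B, ∀ x : A, asc x b c = 0) → WW B k = ⊥ → Solv (Idl R (B : Set A))) →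
  (∀ (A : Type u) [NonUnitalNonAssocRing A]
    [Module R A] [IsScalarTower R A A] [SMulCommClass R A A] [Alt A]
    (𝒜 : ZMod q → Submodule R A) (B : Submodule R A), GP q 𝒜 B →
    (∀ b ∈ B, ∀ c ∈ B, ∀ x : A, asc x b c = 0) → WW B (k + 1) = ⊥ →
    (∀ r ∈ WW B k, ∀ a x : A, DS r a x = 0) →
    Solv (Idl R (B : Set A)))

/-- SWB: from the claim with `D_{r,a} = 0` to the claim with second level zero -/
def SWBStmt : Prop := ∀ (R : Type) [CommRing R], IsUnit (6 : R) → ∀ (q : ℕ) [NeZero q] (k : ℕ),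
  (∀ (A : Type u) [NonUnitalNonAssocRing A]
    [Module R A] [IsScalarTower R A A] [SMulCommClass R A A] [Alt A]
    (𝒜 : ZMod q → Submodule R A) (B : Submodule R A), GP q 𝒜 B →
    (∀ b ∈ B, ∀ c ∈ B, ∀ x : A, asc x b c = 0) → WW B (k + 1) = ⊥ →
    (∀ r ∈ WW B k, ∀ a x : A, DS r a x = 0) →
    Solv (Idl R (B : Set A))) →
  (∀ (A : Type u) [NonUnitalNonAssocRing A]
    [Module R A] [IsScalarTower R A A] [SMulCommClass R A A] [Alt A]
    (𝒜 : ZMod q → Submodule R A) (B : Submodule R A), GP q 𝒜 B →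
    (∀ b ∈ B, ∀ c ∈ B, ∀ x : A, asc x b c = 0) → WW B (k + 1) = ⊥ →
    (∀ r ∈ WW B k, ∀ s ∈ B, ∀ a c : A, asc r a c * s = 0 ∧ s * asc r a c = 0) →
    Solv (Idl R (B : Set A)))

/-- SWC: from the claim with second level zero to the claim for `WW B (k+1) = 0` -/
def SWCStmt : Prop := ∀ (R : Type) [CommRing R], IsUnit (6 : R) → ∀ (q : ℕ) [NeZero q] (k : ℕ),
  (∀ (A : Type u) [NonUnitalNonAssocRing A]
    [Module R A] [IsScalarTower R A A] [SMulCommClass R A A] [Alt A]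
    (𝒜 : ZMod q → Submodule R A) (B : Submodule R A), GP q 𝒜 B →
    (∀ b ∈ B, ∀ c ∈ B, ∀ x : A, asc x b c = 0) → WW B (k + 1) = ⊥ →
    (∀ r ∈ WW B k, ∀ s ∈ B, ∀ a c : A, asc r a c * s = 0 ∧ s * asc r a c = 0) →
    Solv (Idl R (B : Set A))) →
  (∀ (A : Type u) [NonUnitalNonAssocRing A]
    [Module R A] [IsScalarTower R A A] [SMulCommClass R A A] [Alt A]
    (𝒜 : ZMod q → Submodule R A) (B : Submodule R A), GP q 𝒜 B →
    (∀ b ∈ B, ∀ c ∈ B, ∀ x : A, asc x b c = 0) → WW B (k + 1) = ⊥ →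
    Solv (Idl R (B : Set A)))

/-- SV0: the case `V = 0` -/
def SV0Stmt : Prop := ∀ (R : Type) [CommRing R], IsUnit (6 : R) → ∀ (q : ℕ) [NeZero q]
  (A : Type u) [NonUnitalNonAssocRing A]
  [Module R A] [IsScalarTower R A A] [SMulCommClass R A A] [Alt A]
  (𝒜 : ZMod q → Submodule R A) (B : Submodule R A), GP q 𝒜 B →
  (∀ b ∈ B, ∀ c ∈ B, ∀ x : A, asc x b c = 0) → Solv (Idl R (B : Set A))

/-- the elements `D_{bc} x`, `b, c ∈ B`, `x ∈ X` -/
def VS {R : Type} [CommRing R] {A : Type*} [NonUnitalNonAssocRing A] [Module R A]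
    (B X : Submodule R A) : Set A := {z | ∃ b ∈ B, ∃ c ∈ B, ∃ x ∈ X, z = dl b c x}

/-- the elements `(D_{bc} x) d`, `d (D_{bc} x)` -/
def V3S {R : Type} [CommRing R] {A : Type*} [NonUnitalNonAssocRing A] [Module R A]
    (B : Submodule R A) : Set A :=
  {z | ∃ b ∈ B, ∃ c ∈ B, ∃ d ∈ B, ∃ x : A, z = dl b c x * d ∨ z = d * dl b c x}

/-- SI1: if `V_3 = 0` and `D_{bc} 𝒜(i+j) = 0` then `Idl(V_i) Idl(V_j) = 0` -/
def SI1Stmt : Prop := ∀ (R : Type) [CommRing R], IsUnit (6 : R) → ∀ (q : ℕ) [NeZero q]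
  (A : Type u) [NonUnitalNonAssocRing A]
  [Module R A] [IsScalarTower R A A] [SMulCommClass R A A] [Alt A]
  (𝒜 : ZMod q → Submodule R A) (B : Submodule R A), GP q 𝒜 B →
  (∀ b1 ∈ B, ∀ b2 ∈ B, ∀ b3 ∈ B, ∀ x : A, dl b1 b2 x * b3 = 0 ∧ b3 * dl b1 b2 x = 0) →
  ∀ i j : ZMod q, (∀ b ∈ B, ∀ c ∈ B, ∀ x ∈ 𝒜 (i + j), dl b c x = 0) →
  ∀ x ∈ Idl R (VS B (𝒜 i)), ∀ y ∈ Idl R (VS B (𝒜 j)), x * y = 0

/-- SK3: if `nu = 0` then `Idl(V_3)` has square zero -/
def SK3Stmt : Prop := ∀ (R : Type) [CommRing R], IsUnit (6 : R) →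
  ∀ (A : Type u) [NonUnitalNonAssocRing A]
  [Module R A] [IsScalarTower R A A] [SMulCommClass R A A] [Alt A] (B : Submodule R A),
  (∀ b ∈ B, ∀ c ∈ B, b * c = 0) →
  (∀ b1 ∈ B, ∀ b2 ∈ B, ∀ b3 ∈ B, ∀ x y : A, nu b1 b2 b3 x y = 0) →
  ∀ x ∈ Idl R (V3S B), ∀ y ∈ Idl R (V3S B), x * y = 0

/-- SV3: the case `V_3 = 0` -/
def SV3Stmt : Prop := ∀ (R : Type) [CommRing R], IsUnit (6 : R) → ∀ (q : ℕ) [NeZero q]
  (A : Type u) [NonUnitalNonAssocRing A]
  [Module R A] [IsScalarTower R A A] [SMulCommClass R A A] [Alt A]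
  (𝒜 : ZMod q → Submodule R A) (B : Submodule R A), GP q 𝒜 B →
  (∀ b1 ∈ B, ∀ b2 ∈ B, ∀ b3 ∈ B, ∀ x : A, dl b1 b2 x * b3 = 0 ∧ b3 * dl b1 b2 x = 0) →
  Solv (Idl R (B : Set A))

/-- SN0: the case `nu = 0` -/
def SN0Stmt : Prop := ∀ (R : Type) [CommRing R], IsUnit (6 : R) → ∀ (q : ℕ) [NeZero q]
  (A : Type u) [NonUnitalNonAssocRing A]
  [Module R A] [IsScalarTower R A A] [SMulCommClass R A A] [Alt A]
  (𝒜 : ZMod q → Submodule R A) (B : Submodule R A), GP q 𝒜 B →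
  (∀ b1 ∈ B, ∀ b2 ∈ B, ∀ b3 ∈ B, ∀ x y : A, nu b1 b2 b3 x y = 0) →
  Solv (Idl R (B : Set A))

/-- SAL: the general case -/
def SALStmt : Prop := ∀ (R : Type) [CommRing R], IsUnit (6 : R) → ∀ (q : ℕ) [NeZero q]
  (A : Type u) [NonUnitalNonAssocRing A]
  [Module R A] [IsScalarTower R A A] [SMulCommClass R A A] [Alt A]
  (𝒜 : ZMod q → Submodule R A) (B : Submodule R A), GP q 𝒜 B → Solv (Idl R (B : Set A))

/-- SGR: a `ZMod q`-graded alternative algebra with solvable zero component is solvable -/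
def SGRStmt : Prop := ∀ (R : Type) [CommRing R], IsUnit (6 : R) → ∀ (q : ℕ) [NeZero q]
  (A : Type u) [NonUnitalNonAssocRing A]
  [Module R A] [IsScalarTower R A A] [SMulCommClass R A A] [Alt A]
  (𝒜 : ZMod q → Submodule R A), Grd q 𝒜 → Solv (𝒜 0) → Solv (⊤ : Submodule R A)

/-! ## Block G: from gradings to automorphisms -/

/-- GRI: the coefficient ring `R = ℤ[1/(6q)][ζ]`, with a retraction to `ℤ[1/(6q)]` -/
def GRIStmt : Prop := ∀ q : ℕ, q.Prime → ∃ (R : Type) (_ : CommRing R) (ζ : R)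
  (f : R →+ Localization.Away ((6 * q : ℕ) : ℤ)),
  IsUnit (6 : R) ∧ IsUnit (q : R) ∧ ζ ^ q = 1 ∧
  (∀ i : ℕ, ¬ q ∣ i → ∑ k ∈ Finset.range q, ζ ^ (i * k) = 0) ∧ f 1 = 1

/-- GTE: the algebra `R ⊗ A` -/
def GTEStmt : Prop := ∀ q : ℕ, q.Prime → ∀ (A : Type u) [NonUnitalNonAssocRing A] [Alt A]
  (g : A → A), (∀ x y, g (x + y) = g x + g y) → (∀ x y, g (x * y) = g x * g y) →
  (∀ x, g^[q] x = x) → (∀ x : A, (6 * q) • x = 0 → x = 0) →
  ∃ (R : Type) (_ : CommRing R) (A' : Type u) (_ : NonUnitalNonAssocRing A') (_ : Module R A')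
    (_ : IsScalarTower R A' A') (_ : SMulCommClass R A' A') (_ : Alt A') (j : A →+ A')
    (𝒜 : ZMod q → Submodule R A'),
    IsUnit (6 : R) ∧ (∀ x y, j (x * y) = j x * j y) ∧ Function.Injective j ∧ Grd q 𝒜 ∧
    (𝒜 0 = Submodule.span R {z | ∃ x : A, g x = x ∧ z = j x})

/-- GCY: the theorem for one automorphism of prime order -/
def GCYStmt : Prop := ∀ q : ℕ, q.Prime → ∀ (A : Type u) [NonUnitalNonAssocRing A] [Alt A]
  (g : A → A), (∀ x y, g (x + y) = g x + g y) → (∀ x y, g (x * y) = g x * g y) →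
  (∀ x, g^[q] x = x) → (∀ x : A, (6 * q) • x = 0 → x = 0) →
  ∀ C : AddSubgroup A, (∀ x, x ∈ C ↔ g x = x) → (∃ n, derG C n = ⊥) →
  ∃ n, derG (⊤ : AddSubgroup A) n = ⊥

/-- GSO: the theorem for finite solvable groups -/
def GSOStmt : Prop := ∀ (G : Type v) [Group G] [Finite G] [Group.IsSolvable G] (A : Type u)
  [NonUnitalNonAssocRing A] [Alt A] (ρ : G →* (A ≃+* A)),
  (∀ x : A, (6 * Nat.card G) • x = 0 → x = 0) →
  ∀ C : AddSubgroup A, (∀ x, x ∈ C ↔ ∀ g, ρ g x = x) → (∃ n, derG C n = ⊥) →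
  ∃ n, derG (⊤ : AddSubgroup A) n = ⊥

end ASF
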