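import Pool.Agent.H71.ASF.Defs

/-!
# Toolkit for alternative rings (project ASF)

To prove an identity: collect instances of the lemmas below, expand everything with
`simp only [asc, cm, jo, DS, kl, mul_add, add_mul, mul_sub, sub_mul, mul_neg, neg_mul]` and close
by `abel`, or work with `asc` as an atom and the linearity lemmas.
-/

namespace ASF

section lin
variable {A : Type*} [NonUnitalNonAssocRing A]

theorem asc_add1 (x x' y z : A) : asc (x + x') y z = asc x y z + asc x' y z := by
  simp only [asc, add_mul]; abel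
theorem asc_add2 (x y y' z : A) : asc x (y + y') z = asc x y z + asc x y' z := by
  simp only [asc, add_mul, mul_add]; abel
theorem asc_add3 (x y z z' : A) : asc x y (z + z') = asc x y z + asc x y z' := by
  simp only [asc, mul_add]; abel
theorem asc_neg1 (x y z : A) : asc (-x) y z = - asc x y z := by
  simp only [asc, neg_mul]; abel
theorem asc_neg2 (x y z : A) : asc x (-y) z = - asc x y z := by
  simp only [asc, neg_mul, mul_neg]; abel
theorem asc_neg3 (x y z : A) : asc x y (-z) = - asc x y z := by
  simp only [asc, mul_neg]; abel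
theorem asc_sub1 (x x' y z : A) : asc (x - x') y z = asc x y z - asc x' y z := by
  simp only [asc, sub_mul]; abel
theorem asc_sub2 (x y y' z : A) : asc x (y - y') z = asc x y z - asc x y' z := by
  simp only [asc, sub_mul, mul_sub]; abel
theorem asc_sub3 (x y z z' : A) : asc x y (z - z') = asc x y z - asc x y z' := by
  simp only [asc, mul_sub]; abel
theorem asc_zero1 (y z : A) : asc (0 : A) y z = 0 := by simp [asc]
theorem asc_zero2 (x z : A) : asc x (0 : A) z = 0 := by simp [asc]
theorem asc_zero3 (x y : A) : asc x y (0 : A) = 0 := by simp [asc]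
theorem asc_nsmul1 (n : ℕ) (x y z : A) : asc (n • x) y z = n • asc x y z := by
  simp only [asc, smul_mul_assoc, smul_sub]
theorem asc_nsmul2 (n : ℕ) (x y z : A) : asc x (n • y) z = n • asc x y z := by
  simp only [asc, smul_mul_assoc, mul_smul_comm, smul_sub]
theorem asc_nsmul3 (n : ℕ) (x y z : A) : asc x y (n • z) = n • asc x y z := by
  simp only [asc, mul_smul_comm, smul_sub]

theorem cm_add1 (x x' y : A) : cm (x + x') y = cm x y + cm x' y := by
  simp only [cm, add_mul, mul_add]; abel
theorem cm_add2 (x y y' : A) : cm x (y + y') = cm x y + cm x y' := by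
  simp only [cm, add_mul, mul_add]; abel
theorem cm_sub1 (x x' y : A) : cm (x - x') y = cm x y - cm x' y := by
  simp only [cm, sub_mul, mul_sub]; abel
theorem cm_sub2 (x y y' : A) : cm x (y - y') = cm x y - cm x y' := by
  simp only [cm, sub_mul, mul_sub]; abel
theorem cm_neg1 (x y : A) : cm (-x) y = - cm x y := by
  simp only [cm, neg_mul, mul_neg]; abel
theorem cm_neg2 (x y : A) : cm x (-y) = - cm x y := by
  simp only [cm, neg_mul, mul_neg]; abel
theorem cm_zero1 (y : A) : cm (0 : A) y = 0 := by simp [cm]
theorem cm_zero2 (x : A) : cm x (0 : A) = 0 := by simp [cm]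
theorem cm_nsmul1 (n : ℕ) (x y : A) : cm (n • x) y = n • cm x y := by
  simp only [cm, smul_mul_assoc, mul_smul_comm, smul_sub]
theorem cm_nsmul2 (n : ℕ) (x y : A) : cm x (n • y) = n • cm x y := by
  simp only [cm, smul_mul_assoc, mul_smul_comm, smul_sub]
theorem cm_self (x : A) : cm x x = 0 := by simp [cm]
theorem cm_swap (x y : A) : cm y x = - cm x y := by simp only [cm]; abel

theorem jo_add1 (x x' y : A) : jo (x + x') y = jo x y + jo x' y := by
  simp only [jo, add_mul, mul_add]; abel
theorem jo_add2 (x y y' : A) : jo x (y + y') = jo x y + jo x y' := by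
  simp only [jo, add_mul, mul_add]; abel
theorem jo_swap (x y : A) : jo y x = jo x y := by simp only [jo]; abel

theorem kl_add1 (w w' x y z : A) : kl (w + w') x y z = kl w x y z + kl w' x y z := by
  simp only [kl, asc, add_mul, mul_add, mul_sub, sub_mul]; abel
theorem kl_add2 (w x x' y z : A) : kl w (x + x') y z = kl w x y z + kl w x' y z := by
  simp only [kl, asc, add_mul, mul_add, mul_sub, sub_mul]; abel
theorem kl_add3 (w x y y' z : A) : kl w x (y + y') z = kl w x y z + kl w x y' z := by
  simp only [kl, asc, add_mul, mul_add, mul_sub, sub_mul]; abel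
theorem kl_add4 (w x y z z' : A) : kl w x y (z + z') = kl w x y z + kl w x y z' := by
  simp only [kl, asc, add_mul, mul_add, mul_sub, sub_mul]; abel

/-- Teichmüller identity (any nonassociative ring) -/
theorem teich (w x y z : A) : asc (w * x) y z - asc w (x * y) z + asc w x (y * z)
    = w * asc x y z + asc w x y * z := by
  simp only [asc, mul_sub, sub_mul]; abel

end lin

set_option linter.unusedSectionVars false

section alt
variable {A : Type*} [NonUnitalNonAssocRing A] [Alt A]

theorem asc_xxy (x y : A) : asc x x y = 0 := by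
  simp only [asc, Alt.left x y, sub_self]
theorem asc_yxx (x y : A) : asc y x x = 0 := by
  simp only [asc, Alt.right x y, sub_self]
/-- `(y,x,z) = -(x,y,z)` -/
theorem asc_s12 (x y z : A) : asc y x z = - asc x y z := by
  have h := asc_xxy (x + y) z
  rw [asc_add1, asc_add2, asc_add2, asc_xxy, asc_xxy] at h
  rw [zero_add, add_zero] at h
  exact eq_neg_of_add_eq_zero_right h
/-- `(x,z,y) = -(x,y,z)` -/
theorem asc_s23 (x y z : A) : asc x z y = - asc x y z := by
  have h := asc_yxx (y + z) x
  rw [asc_add2, asc_add3, asc_add3, asc_yxx, asc_yxx] at h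
  rw [zero_add, add_zero] at h
  exact eq_neg_of_add_eq_zero_right h
/-- `(z,y,x) = -(x,y,z)` -/
theorem asc_s13 (x y z : A) : asc z y x = - asc x y z := by
  rw [asc_s12 y z x, asc_s23 y x z, asc_s12 x y z, neg_neg]
/-- `(y,z,x) = (x,y,z)` -/
theorem asc_cyc (x y z : A) : asc y z x = asc x y z := by
  rw [asc_s23 y x z, asc_s12 x y z, neg_neg]
/-- `(z,x,y) = (x,y,z)` -/
theorem asc_cyc' (x y z : A) : asc z x y = asc x y z := by
  rw [asc_cyc z x y]
theorem asc_xyx (x y : A) : asc x y x = 0 := by
  rw [asc_s23 x x y, asc_xxy, neg_zero]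

theorem flex (x y : A) : (x * y) * x = x * (y * x) := by
  have h := asc_xyx x y
  exact sub_eq_zero.mp h

/-- left Moufang: `((x y) x) z = x (y (x z))` -/
theorem moufang_left (x y z : A) : ((x * y) * x) * z = x * (y * (x * z)) := by
  have h1 : ((x * y) * x) * z - x * (y * (x * z)) = asc (x * y) x z + asc x y (x * z) := by
    simp only [asc]; abel
  have h2 : asc (x * y) x z = - asc x (x * y) z := asc_s12 _ _ _
  have h3 : asc x y (x * z) = - asc x (x * z) y := asc_s23 _ _ _
  have h4 : asc x (x * y) z + asc x (x * z) y = 0 := by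
    have e1 : asc x (x * y) z + asc x (x * z) y
        = (x * (x * y)) * z + (x * (x * z)) * y - x * ((x * y) * z) - x * ((x * z) * y) := by
      simp only [asc]; abel
    rw [e1, Alt.left x y, Alt.left x z]
    have e2 : asc (x * x) y z + asc (x * x) z y = 0 := by rw [asc_s23 (x * x) y z]; abel
    have e3 : asc x y z + asc x z y = 0 := by rw [asc_s23 x y z]; abel
    have e4 : x * (asc x y z + asc x z y) = 0 := by rw [e3, mul_zero]
    simp only [asc, mul_add, mul_sub] at e2 e4
    rw [Alt.left x (y * z), Alt.left x (z * y)] at e4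
    have : ((x * x) * y) * z + ((x * x) * z) * y - x * ((x * y) * z) - x * ((x * z) * y)
        = (((x * x) * y) * z - (x * x) * (y * z) + (((x * x) * z) * y - (x * x) * (z * y)))
          - (x * ((x * y) * z) - (x * x) * (y * z) + (x * ((x * z) * y) - (x * x) * (z * y))) := by
      abel
    rw [this, e2, e4, sub_zero]
  have h5 : ((x * y) * x) * z - x * (y * (x * z)) = 0 := by
    rw [h1, h2, h3]
    have : -asc x (x * y) z + -asc x (x * z) y = -(asc x (x * y) z + asc x (x * z) y) := by abel
    rw [this, h4, neg_zero]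
  exact sub_eq_zero.mp h5

/-- right Moufang: `z (x (y x)) = ((z x) y) x` -/
theorem moufang_right (x y z : A) : z * (x * (y * x)) = ((z * x) * y) * x := by
  have h1 : ((z * x) * y) * x - z * (x * (y * x)) = asc (z * x) y x + asc z x (y * x) := by
    simp only [asc]; abel
  have h2 : asc (z * x) y x = - asc y (z * x) x := asc_s12 _ _ _
  have h3 : asc z x (y * x) = - asc z (y * x) x := asc_s23 _ _ _
  have h4 : asc y (z * x) x + asc z (y * x) x = 0 := by
    have e1 : asc y (z * x) x + asc z (y * x) x
        = (y * (z * x)) * x + (z * (y * x)) * x - y * ((z * x) * x) - z * ((y * x) * x) := by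
      simp only [asc]; abel
    rw [e1, Alt.right x z, Alt.right x y]
    have e2 : asc y z (x * x) + asc z y (x * x) = 0 := by rw [asc_s12 y z (x * x)]; abel
    have e3 : asc y z x + asc z y x = 0 := by rw [asc_s12 y z x]; abel
    have e4 : (asc y z x + asc z y x) * x = 0 := by rw [e3, zero_mul]
    simp only [asc, add_mul, sub_mul] at e2 e4
    rw [Alt.right x (y * z), Alt.right x (z * y)] at e4
    have : (y * (z * x)) * x + (z * (y * x)) * x - y * (z * (x * x)) - z * (y * (x * x))
        = ((y * z) * (x * x) - y * (z * (x * x)) + ((z * y) * (x * x) - z * (y * (x * x))))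
          - ((y * z) * (x * x) - (y * (z * x)) * x + ((z * y) * (x * x) - (z * (y * x)) * x)) := by
      abel
    rw [this, e2, e4, sub_zero]
  have h5 : ((z * x) * y) * x - z * (x * (y * x)) = 0 := by
    rw [h1, h2, h3]
    have : -asc y (z * x) x + -asc z (y * x) x = -(asc y (z * x) x + asc z (y * x) x) := by abel
    rw [this, h4, neg_zero]
  exact (sub_eq_zero.mp h5).symm

/-- `(x, y x, z) = x (x,y,z)` -/
theorem mou1 (x y z : A) : asc x (y * x) z = x * asc x y z := by
  have h := teich x y x z
  have h1 : asc (x * y) x z + asc x y (x * z) = 0 := by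
    have := moufang_left x y z
    have e : asc (x * y) x z + asc x y (x * z) = ((x * y) * x) * z - x * (y * (x * z)) := by
      simp only [asc]; abel
    rw [e, this, sub_self]
  rw [asc_xyx, zero_mul, add_zero, asc_s12 x y z] at h
  have h2 : asc x (y * x) z = (asc (x * y) x z + asc x y (x * z))
      - (asc (x * y) x z - asc x (y * x) z + asc x y (x * z)) := by abel
  rw [h2, h, h1, mul_neg]; abel

/-- `(x, x y, z) = (x,y,z) x` -/
theorem mou2 (x y z : A) : asc x (x * y) z = asc x y z * x := by
  have h := teich z x y x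
  have h1 : asc (z * x) y x + asc z x (y * x) = 0 := by
    have := moufang_right x y z
    have e : asc (z * x) y x + asc z x (y * x) = ((z * x) * y) * x - z * (x * (y * x)) := by
      simp only [asc]; abel
    rw [e, this, sub_self]
  rw [asc_xyx, mul_zero, zero_add] at h
  have h2 : asc z (x * y) x = (asc (z * x) y x + asc z x (y * x))
      - (asc (z * x) y x - asc z (x * y) x + asc z x (y * x)) := by abel
  rw [h, h1, zero_sub] at h2
  rw [asc_s13 z (x * y) x, h2, neg_neg, asc_cyc' x y z]

/-- middle Moufang: `(x y) (z x) = (x (y z)) x` -/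
theorem moufang_mid (x y z : A) : (x * y) * (z * x) = (x * (y * z)) * x := by
  have h1 : (x * y) * (z * x) = ((x * y) * z) * x - asc (x * y) z x := by
    simp only [asc]; abel
  have h2 : asc (x * y) z x = asc x y z * x := by
    rw [asc_cyc' (x * y) z x |>.symm, mou2]
  rw [h1, h2]
  simp only [asc, sub_mul]; abel

/-- `(x^2, y, z) = x (x,y,z) + (x,y,z) x` -/
theorem asc_sq (x y z : A) : asc (x * x) y z = x * asc x y z + asc x y z * x := by
  have h := teich x x y z
  rw [asc_xxy x (y * z), asc_xxy x y, zero_mul, add_zero, add_zero, mou2] at h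
  linear_combination (norm := abel) h

theorem kl_wwyz (w y z : A) : kl w w y z = 0 := by
  rw [kl, asc_sq]; abel
theorem kl_wxxz (w x z : A) : kl w x x z = 0 := by
  rw [kl, asc_xxy, zero_mul, sub_zero, asc_s12 x (w * x) z, mou1, asc_s12 x w z, mul_neg]; abel
theorem kl_wxyy (w x y : A) : kl w x y y = 0 := by
  rw [kl, asc_yxx, asc_yxx, asc_yxx]; simp

/-- `kl` is skew in arguments 1, 2 -/
theorem kl_s12 (w x y z : A) : kl x w y z = - kl w x y z := by
  have h := kl_wwyz (w + x) y z
  rw [kl_add1, kl_add2, kl_add2, kl_wwyz, kl_wwyz, zero_add, add_zero] at h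
  exact eq_neg_of_add_eq_zero_right h
/-- `kl` is skew in arguments 2, 3 -/
theorem kl_s23 (w x y z : A) : kl w y x z = - kl w x y z := by
  have h := kl_wxxz w (x + y) z
  rw [kl_add2, kl_add3, kl_add3, kl_wxxz, kl_wxxz, zero_add, add_zero] at h
  exact eq_neg_of_add_eq_zero_right h
/-- `kl` is skew in arguments 3, 4 -/
theorem kl_s34 (w x y z : A) : kl w x z y = - kl w x y z := by
  have h := kl_wxyy w x (y + z)
  rw [kl_add3, kl_add4, kl_add4, kl_wxyy, kl_wxyy, zero_add, add_zero] at h
  exact eq_neg_of_add_eq_zero_right h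
/-- `kl y z w x = kl w x y z` -/
theorem kl_pair (w x y z : A) : kl y z w x = kl w x y z := by
  rw [kl_s23 y w z x, kl_s12 w y z x, kl_s34 w y x z, kl_s23 w x y z]; simp

/-- `kl x y z w = - kl w x y z` -/
theorem kl_cyc (w x y z : A) : kl x y z w = - kl w x y z := by
  rw [kl_s34 x y w z, kl_s23 x w y z, kl_s12 w x y z]; simp

/-- `3 f = [w,(x,y,z)] - [x,(y,z,w)] + [y,(z,w,x)] - [z,(w,x,y)]` -/
theorem kl_three (w x y z : A) : kl w x y z + kl w x y z + kl w x y z
    = cm w (asc x y z) - cm x (asc y z w) + cm y (asc z w x) - cm z (asc w x y) := by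
  have t := teich w x y z
  have e1 : asc w (x * y) z = asc (x * y) z w := (asc_cyc w (x * y) z).symm
  have e2 : asc w x (y * z) = asc (y * z) w x := (asc_cyc' w x (y * z)).symm
  have k1 : kl w x y z = asc (w * x) y z - x * asc w y z - asc x y z * w := rfl
  have k2 : kl x y z w = asc (x * y) z w - y * asc x z w - asc y z w * x := rfl
  have k3 : kl y z w x = asc (y * z) w x - z * asc y w x - asc z w x * y := rfl
  have s2 := kl_cyc w x y z
  have s3 := kl_pair w x y z
  rw [s2] at k2
  rw [s3] at k3
  rw [e1, e2] at t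
  have b1 : asc w y z = asc y z w := (asc_cyc w y z).symm
  have b2 : asc x z w = asc z w x := (asc_cyc x z w).symm
  have b3 : asc y w x = asc w x y := (asc_cyc y w x).symm
  rw [b1] at k1
  rw [b2] at k2
  rw [b3] at k3
  have c1 : cm w (asc x y z) = w * asc x y z - asc x y z * w := rfl
  have c2 : cm x (asc y z w) = x * asc y z w - asc y z w * x := rfl
  have c3 : cm y (asc z w x) = y * asc z w x - asc z w x * y := rfl
  have c4 : cm z (asc w x y) = z * asc w x y - asc w x y * z := rfl
  rw [c1, c2, c3, c4]
  linear_combination (norm := abel) k1 - k2 + k3 + t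

/-- `f(w,x,y,z) = ([w,x],y,z) + ([y,z],w,x)` -/
theorem kl_cm (w x y z : A) : kl w x y z = asc (cm w x) y z + asc (cm y z) w x := by
  have t := kl_three w x y z
  have k1 : kl w x y z = asc (w * x) y z - x * asc w y z - asc x y z * w := rfl
  have k2 : kl x w y z = asc (x * w) y z - w * asc x y z - asc w y z * x := rfl
  have k3 : kl y z w x = asc (y * z) w x - z * asc y w x - asc z w x * y := rfl
  have k4 : kl z y w x = asc (z * y) w x - y * asc z w x - asc y w x * z := rfl
  have s1 := kl_s12 w x y z
  have s2 := kl_pair w x y z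
  have s3 := kl_s12 y z w x
  rw [s2] at s3 k3
  rw [s1] at k2
  rw [s3] at k4
  have b1 : asc w y z = asc y z w := (asc_cyc w y z).symm
  have b3 : asc y w x = asc w x y := (asc_cyc y w x).symm
  rw [b1] at k1 k2
  rw [b3] at k3 k4
  have c1 : asc (cm w x) y z = asc (w * x) y z - asc (x * w) y z := by rw [cm, asc_sub1]
  have c2 : asc (cm y z) w x = asc (y * z) w x - asc (z * y) w x := by rw [cm, asc_sub1]
  have d1 : cm w (asc x y z) = w * asc x y z - asc x y z * w := rfl
  have d2 : cm x (asc y z w) = x * asc y z w - asc y z w * x := rfl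
  have d3 : cm y (asc z w x) = y * asc z w x - asc z w x * y := rfl
  have d4 : cm z (asc w x y) = z * asc w x y - asc w x y * z := rfl
  rw [d1, d2, d3, d4] at t
  rw [c1, c2]
  linear_combination (norm := abel) k1 - k2 + k3 - k4 - t

/-- Jacobi: `[[x,y],z] + [[y,z],x] + [[z,x],y] = 6 (x,y,z)` -/
theorem jacobi (x y z : A) :
    cm (cm x y) z + cm (cm y z) x + cm (cm z x) y = 6 • asc x y z := by
  have h1 := asc_cyc x y z
  have h2 := asc_cyc' x y z
  have h3 := asc_s12 x y z
  have h4 := asc_s23 x y z
  have h5 := asc_s13 x y z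
  have e : cm (cm x y) z + cm (cm y z) x + cm (cm z x) y
      = asc x y z + asc y z x + asc z x y - asc y x z - asc x z y - asc z y x := by
    simp only [cm, asc, mul_sub, sub_mul]; abel
  rw [e, h1, h2, h3, h4, h5]; abel

/-- `[z, x y] = [z,x] y + x [z,y] - 3 (x,y,z)` -/
theorem cm_mul (x y z : A) : cm z (x * y) = cm z x * y + x * cm z y - 3 • asc x y z := by
  have h2 := asc_cyc' x y z
  have h4 := asc_s23 x y z
  have e : cm z (x * y) = cm z x * y + x * cm z y - asc z x y - asc x y z + asc x z y := by
    simp only [cm, asc, mul_sub, sub_mul]; abel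
  rw [e, h2, h4]; abel

/-- `[x y, z] = x [y,z] + [x,z] y + 3 (x,y,z)` -/
theorem mul_cm (x y z : A) : cm (x * y) z = x * cm y z + cm x z * y + 3 • asc x y z := by
  have h := cm_mul x y z
  rw [cm_swap z (x * y), h, cm_swap z x, cm_swap z y]
  simp only [mul_neg, neg_mul, neg_sub]
  abel

/-- `[x ∘ y, z] = x ∘ [y,z] + y ∘ [x,z]` -/
theorem cm_jo (x y z : A) : cm (jo x y) z = jo x (cm y z) + jo y (cm x z) := by
  have h1 := mul_cm x y z
  have h2 := mul_cm y x z
  have h3 := asc_s12 x y z
  have e : cm (jo x y) z = cm (x * y) z + cm (y * x) z := by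
    simp only [cm, jo, add_mul, mul_add]; abel
  rw [e, h1, h2, h3]
  simp only [jo]; abel

/-- `[z, x ∘ y] = x ∘ [z,y] + y ∘ [z,x]` -/
theorem cm_jo' (x y z : A) : cm z (jo x y) = jo x (cm z y) + jo y (cm z x) := by
  rw [cm_swap (jo x y) z, cm_jo, cm_swap y z, cm_swap x z]
  simp only [jo, mul_neg, neg_mul]; abel

/-- `(x ∘ y, u, v) = x ∘ (y,u,v) + y ∘ (x,u,v)` -/
theorem asc_jo (x y u v : A) : asc (jo x y) u v = jo x (asc y u v) + jo y (asc x u v) := by
  have h1 : kl x y u v = asc (x * y) u v - y * asc x u v - asc y u v * x := rfl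
  have h2 : kl y x u v = asc (y * x) u v - x * asc y u v - asc x u v * y := rfl
  have h3 := kl_s12 x y u v
  have e : asc (jo x y) u v = asc (x * y) u v + asc (y * x) u v := by rw [jo, asc_add1]
  have e1 : jo x (asc y u v) = x * asc y u v + asc y u v * x := rfl
  have e2 : jo y (asc x u v) = y * asc x u v + asc x u v * y := rfl
  rw [e, e1, e2]
  linear_combination (norm := abel) -h1 - h2 + h3

/-- `([p,q],z,w) = [p,(q,z,w)] - [q,(p,z,w)] - 2 ([z,w],p,q)` -/
theorem asc_cm1 (p q z w : A) : asc (cm p q) z w
    = cm p (asc q z w) - cm q (asc p z w) - 2 • asc (cm z w) p q := by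
  have h1 : kl p q z w = asc (p * q) z w - q * asc p z w - asc q z w * p := rfl
  have h2 : kl q p z w = asc (q * p) z w - p * asc q z w - asc p z w * q := rfl
  have h3 := kl_s12 p q z w
  have h4 := kl_cm p q z w
  have e : asc (cm p q) z w = asc (p * q) z w - asc (q * p) z w := by rw [cm, asc_sub1]
  have e1 : cm p (asc q z w) = p * asc q z w - asc q z w * p := rfl
  have e2 : cm q (asc p z w) = q * asc p z w - asc p z w * q := rfl
  rw [e1, e2]
  linear_combination (norm := abel) h1 - h2 + h3 - (2:ℤ) • h4 - e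

/-- Moufang: `([x,y],x,z) = [x,(x,y,z)]` -/
theorem asc_cmx (x y z : A) : asc (cm x y) x z = cm x (asc x y z) := by
  have h1 := mou1 x y z
  have h2 := mou2 x y z
  have e : asc (cm x y) x z = asc (x * y) x z - asc (y * x) x z := by rw [cm, asc_sub1]
  rw [e, asc_s12 x (x * y) z, asc_s12 x (y * x) z, h1, h2, cm]; abel

/-- middle Moufang linearised: `(x b) (c w) + (w b) (c x) = (x (b c)) w + (w (b c)) x` -/
theorem moufang_mid_lin (x b c w : A) :
    (x * b) * (c * w) + (w * b) * (c * x) = (x * (b * c)) * w + (w * (b * c)) * x := by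
  have h := moufang_mid (x + w) b c
  have h1 := moufang_mid x b c
  have h2 := moufang_mid w b c
  simp only [add_mul, mul_add] at h
  linear_combination (norm := abel) h - h1 - h2

/-- the inner derivations are derivations: product rule -/
theorem DS_mul (u v x y : A) : DS u v (x * y) = DS u v x * y + x * DS u v y := by
  -- [[u,v], xy] - 3 (u,v,xy)
  have h1 := cm_mul x y (cm u v)
  have h2 : asc u v (x * y) = kl x y u v + y * asc x u v + asc y u v * x := by
    rw [kl, asc_cyc' u v (x * y) |>.symm]; abel
  have h3 := kl_cm x y u v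
  have h4 : asc (cm u v) x y = asc x y (cm u v) := (asc_cyc (cm u v) x y).symm
  have e3 : cm (cm u v) (x * y) = cm (cm u v) x * y + x * cm (cm u v) y - 3 • asc x y (cm u v) :=
    h1
  have h5 : asc (cm x y) u v = cm x (asc y u v) - cm y (asc x u v) - 2 • asc (cm u v) x y :=
    asc_cm1 x y u v
  have a1 : asc x u v = asc u v x := (asc_cyc x u v).symm
  have a2 : asc y u v = asc u v y := (asc_cyc y u v).symm
  rw [a1, a2] at h2 h5
  have c1 : cm x (asc u v y) = x * asc u v y - asc u v y * x := rfl
  have c2 : cm y (asc u v x) = y * asc u v x - asc u v x * y := rfl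
  rw [c1, c2] at h5
  rw [h4] at h5 h3
  simp only [DS, sub_mul, mul_sub, smul_mul_assoc, mul_smul_comm]
  rw [e3, h2, h3, h5]
  simp only [smul_add, smul_sub]
  abel

theorem DS_add (u v x y : A) : DS u v (x + y) = DS u v x + DS u v y := by
  simp only [DS, cm_add2, asc_add3, smul_add]; abel

theorem DS_isDer (u v : A) : IsDer (DS u v) := ⟨DS_add u v, DS_mul u v⟩

theorem DS_swap (u v x : A) : DS v u x = - DS u v x := by
  simp only [DS]; rw [cm_swap u v, cm_neg1, asc_s12 u v x]; simp only [smul_neg]; abel

theorem DS_add1 (u u' v x : A) : DS (u + u') v x = DS u v x + DS u' v x := by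
  simp only [DS, cm_add1, asc_add1, smul_add]; abel
theorem DS_add2 (u v v' x : A) : DS u (v + v') x = DS u v x + DS u v' x := by
  simp only [DS, cm_add1, cm_add2, asc_add2, smul_add]; abel
theorem DS_neg1 (u v x : A) : DS (-u) v x = - DS u v x := by
  simp only [DS, cm_neg1, asc_neg1, smul_neg]; abel
theorem DS_neg2 (u v x : A) : DS u (-v) x = - DS u v x := by
  simp only [DS, cm_neg1, cm_neg2, asc_neg2, smul_neg]; abel
theorem DS_sub1 (u u' v x : A) : DS (u - u') v x = DS u v x - DS u' v x := by
  rw [sub_eq_add_neg, DS_add1, DS_neg1, sub_eq_add_neg]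
theorem DS_sub2 (u v v' x : A) : DS u (v - v') x = DS u v x - DS u v' x := by
  rw [sub_eq_add_neg, DS_add2, DS_neg2, sub_eq_add_neg]

/-- `D_{uv,w} + D_{vw,u} + D_{wu,v} = 0` -/
theorem DS_cyc (u v w x : A) : DS (u * v) w x + DS (v * w) u x + DS (w * u) v x = 0 := by
  have t := teich u v w x
  have t2 := teich w x u v
  -- associators (uv,w,x) + (vw,u,x) + (wu,v,x)
  have k1 : kl u v w x = asc (u * v) w x - v * asc u w x - asc v w x * u := rfl
  have k2 : kl v w u x = asc (v * w) u x - w * asc v u x - asc w u x * v := rfl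
  have k3 : kl w u v x = asc (w * u) v x - u * asc w v x - asc u v x * w := rfl
  have s2 : kl v w u x = kl u v w x := by
    rw [kl_s23 v u w x, kl_s12 u v w x, neg_neg]
  have s3 : kl w u v x = kl u v w x := by
    rw [kl_s12 u w v x, kl_s23 u v w x, neg_neg]
  have q := kl_three u v w x
  have c : cm (u * v) w + cm (v * w) u + cm (w * u) v = 3 • asc u v w := by
    have h1 := asc_cyc u v w
    have h2 := asc_cyc' u v w
    have e : cm (u * v) w + cm (v * w) u + cm (w * u) v
        = asc u v w + asc v w u + asc w u v := by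
      simp only [cm, asc]; abel
    rw [e, h1, h2]; abel
  have c' : cm (cm (u * v) w) x + cm (cm (v * w) u) x + cm (cm (w * u) v) x
      = 3 • cm (asc u v w) x := by
    rw [← cm_add1, ← cm_add1, c, cm_nsmul1]
  rw [s2] at k2
  rw [s3] at k3
  have a1 : asc u w x = - asc w u x := asc_s12 w u x
  have a2 : asc v u x = - asc u v x := asc_s12 u v x
  have a3 : asc w v x = - asc v w x := asc_s12 v w x
  rw [a1] at k1
  rw [a2] at k2
  rw [a3] at k3
  have b1 : asc w x u = asc u w x := asc_cyc u w x
  have b2 : asc x u v = asc u v x := asc_cyc' u v x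
  rw [b1, b2, a1] at q
  have d1 : cm u (asc v w x) = u * asc v w x - asc v w x * u := rfl
  have d2 : cm v (-asc w u x) = v * -asc w u x - -asc w u x * v := rfl
  have d3 : cm w (asc u v x) = w * asc u v x - asc u v x * w := rfl
  have d4 : cm x (asc u v w) = - cm (asc u v w) x := cm_swap _ _
  rw [d1, d2, d3, d4] at q
  simp only [mul_neg, neg_mul] at k1 k2 k3 q
  simp only [DS]
  linear_combination (norm := abel) c' + (3:ℤ) • k1 + (3:ℤ) • k2 + (3:ℤ) • k3 - (3:ℤ) • q

end alt

end ASF
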